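import Mathlib

namespace Pool.Agent.MP_60c1b5_an.H51

open MeasureTheory

/-- invariance under both `x ↦ 2x` and `x ↦ 3x` on `ℝ/ℤ` -/
def Inv23 (μ : ProbabilityMeasure UnitAddCircle) : Prop :=
  Measure.map (fun x : UnitAddCircle => (2 : ℕ) • x) (μ : Measure UnitAddCircle)
      = (μ : Measure UnitAddCircle) ∧
    Measure.map (fun x : UnitAddCircle => (3 : ℕ) • x) (μ : Measure UnitAddCircle)
      = (μ : Measure UnitAddCircle)

/-- the measure is carried by a finite set -/
def FinSupp (μ : ProbabilityMeasure UnitAddCircle) : Prop :=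
  ∃ S : Finset UnitAddCircle, (μ : Measure UnitAddCircle) ((↑S : Set UnitAddCircle)ᶜ) = 0

/-- the `k`-th Fourier coefficient, the integral of `exp (2 π i k x)` -/
noncomputable def coef (μ : ProbabilityMeasure UnitAddCircle) (k : ℤ) : ℂ :=
  ∫ x, fourier k x ∂(μ : Measure UnitAddCircle)

/-- the mean of `exp (2 π i 2^t / 431)` over `0 ≤ t < 43` -/
noncomputable def eta : ℂ :=
  (∑ t ∈ Finset.range 43, Complex.exp (2 * Real.pi * Complex.I * 2 ^ t / 431)) / 43

/-- the closed hexagon -/
noncomputable def hexagon : Set ℂ :=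
  convexHull ℝ {1, -1 / 4, (-1 + Real.sqrt 23 * Complex.I) / 22,
    (-1 - Real.sqrt 23 * Complex.I) / 22, eta, (starRingEnd ℂ) eta}

end Pool.Agent.MP_60c1b5_an.H51
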