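import Pool.Agent.MP_60c1b5_an.H51.Orbit
import Pool.Agent.MP_60c1b5_an.H51.Defs

/-! Values attained by finitely supported invariant measures. -/

namespace Pool.Agent.MP_60c1b5_an.H51

open MeasureTheory Complex Finset
open scoped Real

def Att (k : ℤ) : Set ℂ := {z | ∃ ν, Inv23 ν ∧ FinSupp ν ∧ coef ν k = z}

theorem four_int (k : ℤ) (μ : Measure UnitAddCircle) [IsFiniteMeasure μ] :
    Integrable (fun z : UnitAddCircle => (fourier k z : ℂ)) μ :=
  Integrable.of_bound (fourier k).continuous.aestronglyMeasurable 1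
    (ae_of_all _ fun z => by simp [fourier_apply])

theorem coef_neg (μ : ProbabilityMeasure UnitAddCircle) (k : ℤ) :
    coef μ (-k) = (starRingEnd ℂ) (coef μ k) := by
  unfold coef; simp only [fourier_neg]; exact integral_conj

theorem coef_mul {μ : ProbabilityMeasure UnitAddCircle} {m : ℕ}
    (h : Measure.map (fun x : UnitAddCircle => m • x) (μ : Measure UnitAddCircle) = μ) (k : ℤ) :
    coef μ (m * k) = coef μ k := by
  unfold coef
  conv_rhs => rw [← h]
  rw [integral_map (by fun_prop) (fourier k).continuous.aestronglyMeasurable]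
  refine integral_congr_ae (ae_of_all _ fun z => ?_)
  simp only [fourier_apply]
  rw [mul_comm, mul_smul, natCast_zsmul]

theorem att_convex (k : ℤ) : Convex ℝ (Att k) := by
  classical
  rintro _ ⟨μ, hμ, ⟨S, hS⟩, rfl⟩ _ ⟨ν, hν, ⟨T, hT⟩, rfl⟩ a b ha hb hab
  lift a to NNReal using ha
  lift b to NNReal using hb
  have hab' : a + b = 1 := by exact_mod_cast hab
  have hp : IsProbabilityMeasure (a • (μ : Measure UnitAddCircle) + b • (ν : Measure UnitAddCircle)) :=
    ⟨by simp [← ENNReal.coe_add, hab']⟩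
  refine ⟨⟨_, hp⟩, ⟨?_, ?_⟩, ⟨S ∪ T, ?_⟩, ?_⟩
  · simp only [ProbabilityMeasure.coe_mk]
    rw [Measure.map_add _ _ (by fun_prop), Measure.map_smul, Measure.map_smul, hμ.1, hν.1]
  · simp only [ProbabilityMeasure.coe_mk]
    rw [Measure.map_add _ _ (by fun_prop), Measure.map_smul, Measure.map_smul, hμ.2, hν.2]
  · have h1 : (μ : Measure UnitAddCircle) ((↑(S ∪ T) : Set UnitAddCircle)ᶜ) = 0 :=
      measure_mono_null (Set.compl_subset_compl.2 (by simp)) hS
    have h2 : (ν : Measure UnitAddCircle) ((↑(S ∪ T) : Set UnitAddCircle)ᶜ) = 0 :=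
      measure_mono_null (Set.compl_subset_compl.2 (by simp)) hT
    simp only [ProbabilityMeasure.coe_mk, Measure.add_apply, Measure.smul_apply, h1, h2, smul_zero,
      add_zero]
  · unfold coef
    simp only [ProbabilityMeasure.coe_mk]
    rw [integral_add_measure (four_int k _) (four_int k _), integral_smul_nnreal_measure,
      integral_smul_nnreal_measure]
    rfl

theorem sum_rot {E : Type} [AddCommMonoid E] (F : ℕ → E) {L : ℕ} (h : F L = F 0) :
    ∑ a ∈ range L, F (a + 1) = ∑ a ∈ range L, F a := by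
  cases L with
  | zero => simp
  | succ L => rw [sum_range_succ, h, ← sum_range_succ']

theorem att_cop {N n r : ℕ} (hN : 0 < N) (hn : 0 < n) (hm : 2 ^ n ≡ 1 [MOD N])
    (hr : 2 ^ r ≡ 3 [MOD N]) (c2 : Nat.Coprime 2 N) (c3 : Nat.Coprime 3 N) {k : ℤ} (hk : k ≠ 0)
    (k2 : Nat.Coprime 2 k.natAbs) (k3 : Nat.Coprime 3 k.natAbs) : pr N n ∈ Att k := by
  classical
  set W := N * k.natAbs with hW
  have hW0 : 0 < W := Nat.mul_pos hN (Int.natAbs_pos.2 hk)
  set L := n * W.totient with hL
  have hL0 : 0 < L := Nat.mul_pos hn (Nat.totient_pos.2 hW0)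
  have hk' : (k : ℝ) ≠ 0 := by exact_mod_cast hk
  have hN' : (N : ℝ) ≠ 0 := by exact_mod_cast hN.ne'
  set y : UnitAddCircle := ((1 / (N * k) : ℝ) : UnitAddCircle) with hy
  have hWy : W • y = 0 := by
    rw [hy, ← AddCircle.coe_nsmul, AddCircle.coe_eq_zero_iff]
    refine ⟨k.sign, ?_⟩
    have : ((k.natAbs : ℕ) : ℝ) = k.sign * k := by
      have h : ((k.natAbs : ℕ) : ℤ) = k.sign * k := (Int.sign_mul_self_eq_natAbs k).symm
      rw [← Int.cast_natCast, h, Int.cast_mul]
    rw [nsmul_eq_mul, hW, Nat.cast_mul, this]; field_simp; simp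
  have fix : ∀ x : ℕ, Nat.Coprime x W → x ^ L • y = y := by
    intro x hx
    have h1 : x ^ L ≡ 1 [MOD W] := by
      rw [hL, mul_comm, pow_mul]; simpa using (Nat.ModEq.pow_totient hx).pow n
    rw [nsmul_eq_mod_nsmul _ hWy, h1, ← nsmul_eq_mod_nsmul _ hWy, one_nsmul]
  have f2 := fix 2 (Nat.Coprime.mul_right c2 k2)
  have f3 := fix 3 (Nat.Coprime.mul_right c3 k3)
  set P : ℕ → ℕ → UnitAddCircle := fun a b => (2 ^ a * 3 ^ b : ℕ) • y with hP
  set c : NNReal := ((L : NNReal) * L)⁻¹ with hc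
  have hL' : (L : NNReal) ≠ 0 := by exact_mod_cast hL0.ne'
  set ν : Measure UnitAddCircle :=
    c • ∑ a ∈ range L, ∑ b ∈ range L, Measure.dirac (P a b) with hν
  have hp : IsProbabilityMeasure ν := ⟨by
    simp only [hν, Measure.smul_apply, Measure.coe_finsetSum, Finset.sum_apply, measure_univ,
      sum_const, card_range, nsmul_eq_mul, mul_one]
    rw [ENNReal.smul_def, smul_eq_mul, ← ENNReal.coe_natCast, ← ENNReal.coe_mul, ← ENNReal.coe_mul,
      hc, inv_mul_cancel₀ (mul_ne_zero hL' hL'), ENNReal.coe_one]⟩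
  have hmap : ∀ m : ℕ, Measure.map (fun x : UnitAddCircle => m • x) ν =
      c • ∑ a ∈ range L, ∑ b ∈ range L, Measure.dirac (m • P a b) := by
    intro m
    have hm : Measurable fun x : UnitAddCircle => m • x := by fun_prop
    rw [hν, Measure.map_smul, Measure.map_finset_sum hm.aemeasurable]
    congr 1
    refine sum_congr rfl fun a _ => ?_
    rw [Measure.map_finset_sum hm.aemeasurable]
    exact sum_congr rfl fun b _ => Measure.map_dirac' hm _
  refine ⟨⟨ν, hp⟩, ⟨?_, ?_⟩, ⟨(range L ×ˢ range L).image fun x => P x.1 x.2, ?_⟩, ?_⟩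
  · simp only [ProbabilityMeasure.coe_mk]
    rw [hmap, hν, ← sum_rot (fun a => ∑ b ∈ range L, Measure.dirac (P a b))]
    · congr 1
      refine sum_congr rfl fun a _ => sum_congr rfl fun b _ => ?_
      simp only [hP, smul_smul]; congr 2; ring
    · refine sum_congr rfl fun b _ => ?_
      simp only [hP]; rw [mul_comm, mul_smul, f2]; simp
  · simp only [ProbabilityMeasure.coe_mk]
    rw [hmap, hν]
    congr 1
    refine sum_congr rfl fun a _ => ?_
    rw [← sum_rot (fun b => Measure.dirac (P a b))]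
    · refine sum_congr rfl fun b _ => ?_
      simp only [hP, smul_smul]; congr 2; ring
    · simp only [hP]; rw [mul_smul, f3]; simp
  · simp only [ProbabilityMeasure.coe_mk, hν, Measure.smul_apply, Measure.coe_finsetSum,
      Finset.sum_apply]
    rw [sum_eq_zero, smul_zero]
    refine fun a ha => sum_eq_zero fun b hb => ?_
    rw [Measure.dirac_apply, Set.indicator_of_notMem]
    simp only [Set.mem_compl_iff, not_not, coe_image]
    exact ⟨(a, b), by simpa using ⟨mem_range.1 ha, mem_range.1 hb⟩, rfl⟩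
  · unfold coef
    simp only [ProbabilityMeasure.coe_mk, hν]
    rw [integral_smul_nnreal_measure, integral_finsetSum_measure fun a _ => four_int k _]
    simp only [integral_finsetSum_measure fun a _ => four_int k _, integral_dirac]
    have h1 : ∀ a b, (fourier k (P a b) : ℂ) =
        ee ((((1 : ℕ) * (2 ^ a * 3 ^ b) : ℤ) : ℝ) / (N * 1 : ℕ)) := by
      intro a b
      simp only [hP, hy]
      rw [← AddCircle.coe_nsmul, fourier_ee, nsmul_eq_mul]
      congr 1; push_cast; field_simp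
    have h2 : ∀ b, ∑ a ∈ range L, (fourier k (P a b) : ℂ) = L * pr N n := by
      intro b
      have hi : InO (N * 1) 1 (3 ^ b) := ⟨r * b, by
        have := Int.natCast_modEq_iff.2 (hr.pow b).symm
        rw [pow_mul]; simpa using this⟩
      have := orb_sum (k := W.totient) (ψ := fun i : ℤ => ee (i / (N * 1 : ℕ)))
        (ee_per (by omega)) hm (Nat.ModEq.refl (2 ^ 0)) hi
      simp only [h1]
      refine this.trans ?_
      unfold pr
      have hn' : (n : ℂ) ≠ 0 := by exact_mod_cast hn.ne'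
      rw [hL, nsmul_eq_mul]; push_cast; field_simp
    rw [sum_comm]
    simp only [h2, sum_const, card_range, nsmul_eq_mul]
    have hL'' : (L : ℂ) ≠ 0 := by exact_mod_cast hL0.ne'
    rw [NNReal.smul_def, real_smul, hc]; push_cast; field_simp

theorem att_pr {N n r : ℕ} (hN : 0 < N) (hn : 0 < n) (hm : 2 ^ n ≡ 1 [MOD N])
    (hr : 2 ^ r ≡ 3 [MOD N]) (c2 : Nat.Coprime 2 N) (c3 : Nat.Coprime 3 N) {k : ℤ} (hk : k ≠ 0) :
    pr N n ∈ Att k := by
  induction h : k.natAbs using Nat.strong_induction_on generalizing k with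
  | _ m ih =>
    by_cases k2 : Nat.Coprime 2 k.natAbs
    · by_cases k3 : Nat.Coprime 3 k.natAbs
      · exact att_cop hN hn hm hr c2 c3 hk k2 k3
      · rw [Nat.prime_three.coprime_iff_not_dvd, not_not] at k3
        obtain ⟨j, rfl⟩ : (3 : ℤ) ∣ k := Int.natCast_dvd.2 k3
        obtain ⟨ν, h1, h2, h3⟩ := ih j.natAbs (by omega) (k := j) (by omega) rfl
        exact ⟨ν, h1, h2, (coef_mul h1.2 j).trans h3⟩
    · rw [Nat.prime_two.coprime_iff_not_dvd, not_not] at k2
      obtain ⟨j, rfl⟩ : (2 : ℤ) ∣ k := Int.natCast_dvd.2 k2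
      obtain ⟨ν, h1, h2, h3⟩ := ih j.natAbs (by omega) (k := j) (by omega) rfl
      exact ⟨ν, h1, h2, (coef_mul h1.1 j).trans h3⟩

theorem att_conj {k : ℤ} {z : ℂ} (h : z ∈ Att (-k)) : (starRingEnd ℂ) z ∈ Att k := by
  obtain ⟨ν, h1, h2, rfl⟩ := h
  exact ⟨ν, h1, h2, by rw [coef_neg, conj_conj]⟩

end Pool.Agent.MP_60c1b5_an.H51
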