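import Pool.Agent.MP_60c1b5_an.H51.Orbit

/-! A verified checker for the node inequalities. -/

namespace Pool.Agent.MP_60c1b5_an.H51

open Complex Finset
open scoped Real

noncomputable def frc {β : Type} (x : ℕ) (k : ℕ → β) : β :=
  Nat.rec (k 0) (fun m _ => k (Nat.succ m)) x

theorem frc_eq {β : Type} (x : ℕ) (k : ℕ → β) : frc x k = k x := by cases x <;> rfl

theorem cand (a b : Bool) : cond a b false = true ↔ a = true ∧ b = true := by
  cases a <;> simp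

def chunk (G c : ℕ) : ℕ := Nat.mod (Nat.shiftRight G (Nat.mul 1280 c)) (Nat.pow 2 1280)

noncomputable def lk (G i : ℕ) : ℕ :=
  frc (Nat.div i 32) fun c =>
    Nat.mod (Nat.shiftRight (chunk G c) (Nat.mul 40 (Nat.mod i 32))) 1099511627776

theorem lk_lt (G i : ℕ) : lk G i < 1099511627776 := by
  unfold lk; rw [frc_eq]; exact Nat.mod_lt _ (by norm_num)

noncomputable def nd (G D j : ℕ) : ℕ :=
  Nat.add (Nat.mul (Nat.sub 6 (Nat.mod j 6)) (lk G (Nat.mod (Nat.div j 6) D)))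
    (Nat.mul (Nat.mod j 6) (lk G (Nat.mod (Nat.succ (Nat.div j 6)) D)))

noncomputable def uu (G D : ℕ) (i : ℤ) : ℝ := lk G (i % D).toNat / 2 ^ 32

theorem uu_per (G D : ℕ) (i n : ℤ) : uu G D (i + D * n) = uu G D i := by
  unfold uu; rw [Int.add_mul_emod_self_left]

theorem uu_bd (G D : ℕ) (i : ℤ) : |uu G D i| ≤ 256 := by
  unfold uu
  rw [abs_of_nonneg (by positivity), div_le_iff₀ (by positivity)]
  have : ((lk G (i % D).toNat : ℕ) : ℝ) ≤ (1099511627776 : ℕ) := by exact_mod_cast (lk_lt _ _).le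
  refine this.trans (by norm_num)

theorem uu_nat (G D i : ℕ) : uu G D i = lk G (i % D) / 2 ^ 32 := by
  unfold uu; rw [← Int.natCast_mod, Int.toNat_natCast]

theorem L_nd (G D j : ℕ) : L (uu G D) (j / 6) = nd G D j / (6 * 2 ^ 32) := by
  have h := Nat.div_add_mod j 6
  have hm := Nat.mod_lt j (show 0 < 6 by norm_num)
  have h' : (j : ℝ) = 6 * (j / 6 : ℕ) + (j % 6 : ℕ) := by exact_mod_cast h.symm
  have hm' : ((j % 6 : ℕ) : ℝ) ≤ 6 := by exact_mod_cast hm.le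
  have h0 : (0 : ℝ) ≤ (j % 6 : ℕ) := Nat.cast_nonneg _
  have e : nd G D j = (6 - j % 6) * lk G (j / 6 % D) + j % 6 * lk G ((j / 6 + 1) % D) := rfl
  rw [L_cell _ ((j / 6 : ℕ) : ℤ) (by rw [Int.cast_natCast]; linarith)
    (by rw [Int.cast_natCast]; linarith), ← Nat.cast_succ, uu_nat, uu_nat, e, Int.cast_natCast,
    Nat.cast_add, Nat.cast_mul, Nat.cast_mul, Nat.cast_sub hm.le]
  generalize ((j / 6 : ℕ) : ℝ) = A at *
  generalize ((j % 6 : ℕ) : ℝ) = B at *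
  rw [h']; simp only [Nat.succ_eq_add_one, Nat.cast_ofNat]; ring

noncomputable def msk (D e1 e2 n : ℕ) : ℕ :=
  Nat.rec 0 (fun s K => K ||| (2 ^ (2 ^ s * e1 % D) ||| 2 ^ (2 ^ s * e2 % D))) n

theorem msk_iff (D e1 e2 n i : ℕ) : (msk D e1 e2 n).testBit i = true ↔
    ∃ s < n, 2 ^ s * e1 % D = i ∨ 2 ^ s * e2 % D = i := by
  induction n with
  | zero => simp [msk]
  | succ n ih =>
    have : msk D e1 e2 (n + 1) =
      msk D e1 e2 n ||| (2 ^ (2 ^ n * e1 % D) ||| 2 ^ (2 ^ n * e2 % D)) := rfl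
    rw [this, Nat.testBit_or, Nat.testBit_or, Bool.or_eq_true, Bool.or_eq_true, ih,
      Nat.testBit_two_pow, Nat.testBit_two_pow, decide_eq_true_iff, decide_eq_true_iff]
    constructor
    · rintro (⟨s, hs, h⟩ | h)
      · exact ⟨s, by omega, h⟩
      · exact ⟨n, by omega, h⟩
    · rintro ⟨s, hs, h⟩
      rcases Nat.lt_succ_iff_lt_or_eq.1 hs with hs | rfl
      · exact .inl ⟨s, hs, h⟩
      · exact .inr h

structure Par where
  D : ℕ
  S : ℕ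
  wr : ℕ
  wi : ℕ
  K1 : ℕ
  K2 : ℕ
  A1 : ℕ
  A2 : ℕ
  B : ℕ
  c1 : ℕ
  c2 : ℕ
  E1 : ℕ
  E2 : ℕ

noncomputable def ok (D S A1 A2 B c1 c2 E1 E2 G H K j X Y : ℕ) : Bool :=
  frc (Nat.add (Nat.mul 6 (Nat.add (Nat.mul A1 X) (Nat.mul B Y)))
    (Nat.mul S (Nat.add (Nat.add (nd G D j) (nd H D j)) c1))) fun P =>
  frc (Nat.add (Nat.mul 6 (Nat.mul A2 X))
    (Nat.mul S (Nat.add (Nat.add (nd G D (Nat.mul 2 j)) (nd H D (Nat.mul 3 j))) c2))) fun Q =>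
  cond (cond (Nat.beq (Nat.mod j 6) 0)
      (Nat.beq (Nat.mod (Nat.shiftRight K (Nat.mod (Nat.div j 6) D)) 2) 1) false)
    (cond (Nat.ble P (Nat.add Q E1)) (Nat.ble Q (Nat.add P E1)) false)
    (Nat.ble (Nat.add P E2) Q)

noncomputable def loop (S wr wi K1 K2 : ℕ) (f : ℕ → ℕ → ℕ → Bool) (Xe Ye n : ℕ) :
    ℕ → ℕ → ℕ → Bool :=
  Nat.rec (fun _ X Y => cond (Nat.beq X Xe) (Nat.beq Y Ye) false) (fun _ ih j X Y =>
    cond (f j X Y)
      (frc (Nat.succ j) fun j' =>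
        frc (Nat.div (Nat.sub (Nat.add (Nat.mul X wr) K1) (Nat.mul Y wi)) S) fun X' =>
        frc (Nat.div (Nat.sub (Nat.add (Nat.mul X wi) (Nat.mul Y wr)) K2) S) fun Y' => ih j' X' Y')
      false) n

noncomputable def run (p : Par) (G H e1 e2 m Xe Ye n j X Y : ℕ) : Bool :=
  frc (msk p.D e1 e2 m) fun K =>
    Par.rec (fun D S wr wi K1 K2 A1 A2 B c1 c2 E1 E2 =>
      loop S wr wi K1 K2 (ok D S A1 A2 B c1 c2 E1 E2 G H K) Xe Ye n j X Y) p

noncomputable def zz (S X Y : ℕ) : ℂ := ⟨X / S - 2, Y / S - 2⟩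

def Inv (M S : ℕ) (η : ℝ) (j X Y : ℕ) : Prop := ‖ee (j / M) - zz S X Y‖ ≤ j * η

theorem div_err (m d : ℕ) (hd : 0 < d) : |((m / d : ℕ) : ℝ) - (m : ℝ) / d| ≤ 1 := by
  have h : (0 : ℝ) < d := by exact_mod_cast hd
  have h1 : ((m / d : ℕ) : ℝ) ≤ (m : ℝ) / d := Nat.cast_div_le
  have h2 : (m : ℝ) / d ≤ (m / d : ℕ) + 1 := by
    rw [div_le_iff₀ h]
    have := (Nat.lt_div_mul_add (a := m) hd).le
    have : (m : ℝ) ≤ ((m / d * d + d : ℕ) : ℝ) := by exact_mod_cast this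
    push_cast at this; linarith
  rw [abs_le]; constructor <;> linarith

theorem Inv.step {M S wr wi K1 K2 j X Y : ℕ} {η ε : ℝ} (hS : 0 < S)
    (k1 : K1 + 2 * S * wr = 2 * S * S + 2 * S * wi) (k2 : K2 + 2 * S * S = 2 * S * (wi + wr))
    (hω : ‖ee (1 / M) - ⟨wr / S, wi / S⟩‖ ≤ ε) (hη : 2 * ε + 2 / S ≤ η) (hε : ε ≤ 1 / 3)
    (hj : j * η ≤ 1 / 2) (h : Inv M S η j X Y) :
    Inv M S η (j + 1) ((X * wr + K1 - Y * wi) / S) ((X * wi + Y * wr - K2) / S) := by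
  have hS' : (0 : ℝ) < S := by exact_mod_cast hS
  unfold Inv at *
  set ω : ℂ := ⟨wr / S, wi / S⟩ with hω'
  have n1 : ‖zz S X Y‖ ≤ 3 / 2 := by
    have := norm_sub_norm_le (zz S X Y) (ee (j / M))
    rw [norm_ee, norm_sub_rev] at this; linarith
  have n2 : ‖ω‖ ≤ 4 / 3 := by
    have := norm_sub_norm_le ω (ee (1 / M))
    rw [norm_ee, norm_sub_rev] at this; linarith
  have n3 : ‖zz S X Y * ω‖ ≤ 2 := by
    rw [norm_mul]; nlinarith [norm_nonneg (zz S X Y), norm_nonneg ω]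
  have k1' : (K1 : ℝ) + 2 * S * wr = 2 * S * S + 2 * S * wi := by exact_mod_cast k1
  have k2' : (K2 : ℝ) + 2 * S * S = 2 * S * (wi + wr) := by exact_mod_cast k2
  have r1 : (X : ℝ) * wr + K1 - Y * wi = S * S * ((zz S X Y * ω).re + 2) := by
    simp only [mul_re, zz, hω']; field_simp; linarith
  have r2 : (X : ℝ) * wi + Y * wr - K2 = S * S * ((zz S X Y * ω).im + 2) := by
    simp only [mul_im, zz, hω']; field_simp; linarith
  have a1 := (abs_le.1 ((abs_re_le_norm _).trans n3)).1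
  have a2 := (abs_le.1 ((abs_im_le_norm _).trans n3)).1
  have s1 : Y * wi ≤ X * wr + K1 := by
    have : (0 : ℝ) ≤ S * S * ((zz S X Y * ω).re + 2) := mul_nonneg (by positivity) (by linarith)
    have : (Y : ℝ) * wi ≤ X * wr + K1 := by linarith
    exact_mod_cast this
  have s2 : K2 ≤ X * wi + Y * wr := by
    have : (0 : ℝ) ≤ S * S * ((zz S X Y * ω).im + 2) := mul_nonneg (by positivity) (by linarith)
    have : (K2 : ℝ) ≤ X * wi + Y * wr := by linarith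
    exact_mod_cast this
  have d1 := div_err (X * wr + K1 - Y * wi) S hS
  have d2 := div_err (X * wi + Y * wr - K2) S hS
  rw [Nat.cast_sub s1] at d1
  rw [Nat.cast_sub s2] at d2
  push_cast at d1 d2
  rw [r1] at d1
  rw [r2] at d2
  set X' := (X * wr + K1 - Y * wi) / S
  set Y' := (X * wi + Y * wr - K2) / S
  have n4 : ‖zz S X Y * ω - zz S X' Y'‖ ≤ 2 / S := by
    refine (norm_le_abs_re_add_abs_im _).trans ?_
    have b1 : (zz S X Y * ω - zz S X' Y').re =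
        -((X' - S * S * ((zz S X Y * ω).re + 2) / S) / S) := by
      rw [sub_re]; generalize (zz S X Y * ω).re = A; simp only [zz]; field_simp; ring
    have b2 : (zz S X Y * ω - zz S X' Y').im =
        -((Y' - S * S * ((zz S X Y * ω).im + 2) / S) / S) := by
      rw [sub_im]; generalize (zz S X Y * ω).im = A; simp only [zz]; field_simp; ring
    rw [b1, b2, abs_neg, abs_neg, abs_div, abs_div, abs_of_pos hS', ← add_div]
    exact div_le_div_of_nonneg_right (by linarith) hS'.le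
  have e : ee (((j + 1 : ℕ) : ℝ) / M) - zz S X' Y' = (ee (j / M) - zz S X Y) * ee (1 / M) +
      zz S X Y * (ee (1 / M) - ω) + (zz S X Y * ω - zz S X' Y') := by
    rw [show ((j + 1 : ℕ) : ℝ) / M = j / M + 1 / M by push_cast; ring, ee_add]; ring
  rw [e]
  refine (norm_add₃_le ..).trans ?_
  rw [norm_mul, norm_mul, norm_ee, mul_one]
  have := mul_le_mul n1 hω (norm_nonneg _) (by norm_num)
  have : 0 ≤ ε := (norm_nonneg _).trans hω
  push_cast; linarith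

theorem loop_spec {M S wr wi K1 K2 : ℕ} {η ε : ℝ} (hS : 0 < S)
    (k1 : K1 + 2 * S * wr = 2 * S * S + 2 * S * wi) (k2 : K2 + 2 * S * S = 2 * S * (wi + wr))
    (hω : ‖ee (1 / M) - ⟨wr / S, wi / S⟩‖ ≤ ε) (hη : 2 * ε + 2 / S ≤ η) (hε : ε ≤ 1 / 3)
    {f : ℕ → ℕ → ℕ → Bool} {Xe Ye : ℕ} (n : ℕ) : ∀ j X Y : ℕ, (j + n : ℕ) * η ≤ 1 / 2 →
    Inv M S η j X Y → loop S wr wi K1 K2 f Xe Ye n j X Y = true →
    Inv M S η (j + n) Xe Ye ∧ ∀ t, j ≤ t → t < j + n → ∃ X Y, Inv M S η t X Y ∧ f t X Y = true := by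
  have hη0 : 0 ≤ η := le_trans (by have := (norm_nonneg _).trans hω; positivity) hη
  induction n with
  | zero =>
    intro j X Y _ h hl
    have : cond (Nat.beq X Xe) (Nat.beq Y Ye) false = true := hl
    rw [cand, Nat.beq_eq, Nat.beq_eq] at this
    obtain ⟨rfl, rfl⟩ := this
    exact ⟨h, fun t _ _ => by omega⟩
  | succ n ih =>
    intro j X Y hj h hl
    have e : loop S wr wi K1 K2 f Xe Ye (n + 1) j X Y = cond (f j X Y)
      (frc (j + 1) fun j' => frc ((X * wr + K1 - Y * wi) / S) fun X' =>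
        frc ((X * wi + Y * wr - K2) / S) fun Y' => loop S wr wi K1 K2 f Xe Ye n j' X' Y') false := rfl
    rw [e, frc_eq, frc_eq, frc_eq, cand] at hl
    have hj' : j * η ≤ 1 / 2 := le_trans (mul_le_mul_of_nonneg_right
      (Nat.cast_le.2 (Nat.le_add_right j (n + 1))) hη0) hj
    obtain ⟨i1, i2⟩ := ih (j + 1) _ _ (by rwa [add_assoc, add_comm 1 n])
      (h.step hS k1 k2 hω hη hε hj') hl.2
    refine ⟨by rwa [add_assoc, add_comm 1 n] at i1, fun t h1 h2 => ?_⟩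
    rcases h1.eq_or_lt with rfl | h1
    · exact ⟨X, Y, h, hl.1⟩
    · exact i2 t h1 (by omega)

noncomputable def Par.a (p : Par) : ℝ := (p.A1 - p.A2) / 2 ^ 32
noncomputable def Par.b (p : Par) : ℝ := p.B / 2 ^ 32
noncomputable def Par.c (p : Par) : ℝ := ((p.c1 - p.c2) / 6 + 2 * (p.A1 - p.A2) + 2 * p.B) / 2 ^ 32

def Good (p : Par) (G H K : ℕ) (δ σ : ℝ) (j : ℕ) : Prop :=
  if j % 6 = 0 ∧ K.testBit (j / 6 % p.D) = true then
    |Phi p.D p.a p.b p.c (uu G p.D) (uu H p.D) j| ≤ δ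
  else Phi p.D p.a p.b p.c (uu G p.D) (uu H p.D) j ≤ -σ

theorem ok_spec {p : Par} {G H K j X Y : ℕ} {η δ σ e : ℝ} (hS : 0 < p.S) (ha : |p.a| ≤ 1)
    (hb : |p.b| ≤ 1) (he : j * η ≤ e) (hδ : p.E1 / (6 * 2 ^ 32 * p.S) + 2 * e ≤ δ)
    (hσ : σ + 2 * e ≤ p.E2 / (6 * 2 ^ 32 * p.S)) (h : Inv (6 * p.D) p.S η j X Y)
    (hk : ok p.D p.S p.A1 p.A2 p.B p.c1 p.c2 p.E1 p.E2 G H K j X Y = true) :
    Good p G H K δ σ j := by
  have hS' : (0 : ℝ) < p.S := by exact_mod_cast hS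
  unfold ok at hk
  rw [frc_eq, frc_eq] at hk
  simp only [Nat.add_eq, Nat.mul_eq] at hk
  set P := 6 * (p.A1 * X + p.B * Y) + p.S * (nd G p.D j + nd H p.D j + p.c1) with hP
  set Q := 6 * (p.A2 * X) + p.S * (nd G p.D (2 * j) + nd H p.D (3 * j) + p.c2) with hQ
  have h1 := (abs_re_le_norm _).trans (h.trans he)
  have h2 := (abs_im_le_norm _).trans (h.trans he)
  have key : Phi p.D p.a p.b p.c (uu G p.D) (uu H p.D) j = (P - Q) / (6 * 2 ^ 32 * p.S) +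
      (p.a * (ee (j / (6 * p.D : ℕ)) - zz p.S X Y).re +
        p.b * (ee (j / (6 * p.D : ℕ)) - zz p.S X Y).im) := by
    have l2 := L_nd G p.D (2 * j)
    have l3 := L_nd H p.D (3 * j)
    push_cast at l2 l3
    unfold Phi
    rw [L_nd, L_nd, l2, l3, hP, hQ]
    simp only [sub_re, sub_im, zz, Par.a, Par.b, Par.c]
    push_cast; field_simp; ring
  have e0 : 0 ≤ e := (abs_nonneg _).trans h1
  have er : |p.a * (ee (j / (6 * p.D : ℕ)) - zz p.S X Y).re +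
        p.b * (ee (j / (6 * p.D : ℕ)) - zz p.S X Y).im| ≤ 2 * e := by
    refine (abs_add_le _ _).trans ?_
    rw [abs_mul, abs_mul]
    have := mul_le_mul ha h1 (abs_nonneg _) zero_le_one
    have := mul_le_mul hb h2 (abs_nonneg _) zero_le_one
    linarith
  have hc : cond (Nat.beq (Nat.mod j 6) 0)
      (Nat.beq (Nat.mod (Nat.shiftRight K (Nat.mod (Nat.div j 6) p.D)) 2) 1) false = true ↔
      j % 6 = 0 ∧ K.testBit (j / 6 % p.D) = true := by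
    rw [Nat.testBit_eq_decide_div_mod_eq, ← Nat.shiftRight_eq_div_pow]
    rw [cand, Nat.beq_eq, Nat.beq_eq, decide_eq_true_iff]
    rfl
  have hT : (0 : ℝ) < 6 * 2 ^ 32 * p.S := by positivity
  obtain ⟨er1, er2⟩ := abs_le.1 er
  unfold Good
  rw [key]
  split_ifs with c
  · rw [hc.2 c] at hk
    rw [cond_true, cand, Nat.ble_eq, Nat.ble_eq] at hk
    have q1 : (P : ℝ) ≤ Q + p.E1 := by exact_mod_cast hk.1
    have q2 : (Q : ℝ) ≤ P + p.E1 := by exact_mod_cast hk.2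
    have q3 : |((P : ℝ) - Q) / (6 * 2 ^ 32 * p.S)| ≤ (p.E1 : ℝ) / (6 * 2 ^ 32 * p.S) := by
      rw [abs_div, abs_of_pos hT]
      exact div_le_div_of_nonneg_right (abs_le.2 ⟨by linarith, by linarith⟩) hT.le
    exact (abs_add_le _ _).trans (by linarith)
  · rw [Bool.eq_false_iff.2 (mt hc.1 c)] at hk
    simp only [cond_false, Nat.ble_eq] at hk
    have q1 : (P : ℝ) + p.E2 ≤ Q := by exact_mod_cast hk
    have q3 : ((P : ℝ) - Q) / (6 * 2 ^ 32 * p.S) ≤ -p.E2 / (6 * 2 ^ 32 * p.S) :=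
      div_le_div_of_nonneg_right (by linarith) hT.le
    rw [neg_div] at q3
    linarith

structure Side (p : Par) (η δ σ e : ℝ) : Prop where
  hS : 0 < p.S
  k1 : p.K1 + 2 * p.S * p.wr = 2 * p.S * p.S + 2 * p.S * p.wi
  k2 : p.K2 + 2 * p.S * p.S = 2 * p.S * (p.wi + p.wr)
  hω : ∃ ε, ‖ee (1 / (6 * p.D : ℕ)) - ⟨p.wr / p.S, p.wi / p.S⟩‖ ≤ ε ∧ 2 * ε + 2 / p.S ≤ η ∧ ε ≤ 1 / 3
  ha : |p.a| ≤ 1
  hb : |p.b| ≤ 1
  he : (6 * p.D + 1 : ℕ) * η ≤ e
  he' : e ≤ 1 / 2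
  hδ : p.E1 / (6 * 2 ^ 32 * p.S) + 2 * e ≤ δ
  hσ : σ + 2 * e ≤ p.E2 / (6 * 2 ^ 32 * p.S)

/-- state of the sweep: the invariant at `j` and all earlier nodes checked -/
def St (p : Par) (G H K : ℕ) (η δ σ : ℝ) (j X Y : ℕ) : Prop :=
  Inv (6 * p.D) p.S η j X Y ∧ ∀ t < j, Good p G H K δ σ t

theorem St.init {p : Par} {η δ σ e : ℝ} (C : Side p η δ σ e) (G H K : ℕ) :
    St p G H K η δ σ 0 (3 * p.S) (2 * p.S) := by
  have hS' : (p.S : ℝ) ≠ 0 := by exact_mod_cast C.hS.ne'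
  refine ⟨?_, fun t ht => by omega⟩
  have : zz p.S (3 * p.S) (2 * p.S) = 1 := by
    apply Complex.ext <;> simp only [zz, one_re, one_im] <;> push_cast <;> field_simp <;> norm_num
  simp [Inv, this, ee]

theorem St.next {p : Par} {η δ σ e : ℝ} (C : Side p η δ σ e) {G H e1 e2 m Xe Ye n j X Y : ℕ}
    (h : St p G H (msk p.D e1 e2 m) η δ σ j X Y) (hn : j + n ≤ 6 * p.D + 1)
    (hr : run p G H e1 e2 m Xe Ye n j X Y = true) :
    St p G H (msk p.D e1 e2 m) η δ σ (j + n) Xe Ye := by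
  obtain ⟨ε, w1, w2, w3⟩ := C.hω
  have hη0 : 0 ≤ η := le_trans (by have := (norm_nonneg _).trans w1; positivity) w2
  have mono : ∀ t : ℕ, t ≤ 6 * p.D + 1 → t * η ≤ e := fun t ht =>
    (mul_le_mul_of_nonneg_right (by exact_mod_cast ht) hη0).trans C.he
  unfold run at hr
  rw [frc_eq] at hr
  obtain ⟨i1, i2⟩ := loop_spec C.hS C.k1 C.k2 w1 w2 w3 n j X Y ((mono _ hn).trans C.he') h.1 hr
  refine ⟨i1, fun t ht => ?_⟩
  rcases lt_or_ge t j with h1 | h1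
  · exact h.2 t h1
  · obtain ⟨X', Y', a1, a2⟩ := i2 t h1 ht
    exact ok_spec C.hS C.ha C.hb (mono t (by omega)) C.hδ C.hσ a1 a2

theorem cert_of {p : Par} {N1 n1 N2 n2 G H : ℕ} {δ σ : ℝ} (hD : p.D = N1 * N2)
    (h2 : 2 ≤ N1 * N2) (hn1 : 0 < n1) (hn2 : 0 < n2) (m1 : 2 ^ n1 ≡ 1 [MOD N1])
    (m2 : 2 ^ n2 ≡ 1 [MOD N2]) (r1 : ∃ r, 2 ^ r ≡ 3 [MOD N1]) (r2 : ∃ r, 2 ^ r ≡ 3 [MOD N2])
    (m : 2 ^ (n1 * n2) ≡ 1 [MOD N1 * N2]) (ha : |p.a| ≤ 1) (hb0 : 0 < p.b) (hb : p.b ≤ 1)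
    (hδ : δ ≤ 1 / 20)
    (num : 4 * (1 / (N1 * N2 : ℕ)) ^ 2 + 41 * δ + 84 * (n1 * n2 : ℕ) * δ ≤ σ)
    (h : ∀ t < 6 * p.D + 1, Good p G H (msk p.D N2 N1 (n1 * n2)) δ σ t) :
    Cert N1 n1 N2 n2 p.a p.b p.c δ σ (uu G p.D) (uu H p.D) := by
  have hD0 : 0 < N1 * N2 := by omega
  unfold Good at h
  rw [hD] at h ⊢
  refine ⟨h2, hn1, hn2, m1, m2, r1, r2, uu_per _ _, uu_per _ _, ⟨256, uu_bd _ _, uu_bd _ _⟩,
    ?_, ?_, ha, hb0, hb, hδ, num⟩
  · have red : ∀ (e : ℕ) (i : ℤ), InO (N1 * N2) e i → ∃ s < n1 * n2,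
        i ≡ (2 ^ s * e % (N1 * N2) : ℕ) [ZMOD (N1 * N2 : ℕ)] := by
      rintro e i ⟨s, hs⟩
      refine ⟨s % (n1 * n2), Nat.mod_lt _ (Nat.mul_pos hn1 hn2), hs.trans ?_⟩
      have a1 : 2 ^ s ≡ 2 ^ (s % (n1 * n2)) [MOD N1 * N2] := by
        conv_lhs => rw [← Nat.div_add_mod s (n1 * n2), pow_add, pow_mul]
        simpa using (m.pow (s / (n1 * n2))).mul_right (2 ^ (s % (n1 * n2)))
      have a2 := (a1.mul_right e).trans (Nat.mod_modEq _ _).symm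
      exact_mod_cast Int.natCast_modEq_iff.2 a2
    intro i hi
    obtain ⟨k, hk, hb, hik⟩ : ∃ k < N1 * N2, (msk (N1 * N2) N2 N1 (n1 * n2)).testBit k = true ∧
        i ≡ k [ZMOD (N1 * N2 : ℕ)] := by
      rcases hi with hi | hi <;> obtain ⟨s, hs, h⟩ := red _ _ hi
      · exact ⟨_, Nat.mod_lt _ hD0, (msk_iff ..).2 ⟨s, hs, .inl rfl⟩, h⟩
      · exact ⟨_, Nat.mod_lt _ hD0, (msk_iff ..).2 ⟨s, hs, .inr rfl⟩, h⟩
    have := h (6 * k) (by omega)
    rw [if_pos ⟨by omega, by rwa [Nat.mul_div_cancel_left _ (by norm_num), Nat.mod_eq_of_lt hk]⟩]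
      at this
    have per : ∀ i n : ℤ, (fun i : ℤ => Phi (N1 * N2) p.a p.b p.c (uu G (N1 * N2)) (uu H (N1 * N2))
        (6 * i)) (i + (N1 * N2 : ℕ) * n) = (fun i : ℤ => Phi (N1 * N2) p.a p.b p.c
        (uu G (N1 * N2)) (uu H (N1 * N2)) (6 * i)) i := by
      intro i n
      simp only [Phi_int hD0, ee_per hD0]
      rw [mul_add 2, mul_add 3, mul_left_comm 2, mul_left_comm 3, uu_per, uu_per, uu_per, uu_per]
    have e := per_modEq (ψ := fun i : ℤ => Phi (N1 * N2) p.a p.b p.c (uu G (N1 * N2))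
      (uu H (N1 * N2)) (6 * i)) per hik
    simp only [Int.cast_natCast] at e
    rw [e]; exact_mod_cast this
  · intro j hj
    have := h j (by omega)
    split_ifs at this with c
    · refine .inl ⟨j / 6, by omega, ?_⟩
      obtain ⟨s, _, hs⟩ := (msk_iff ..).1 c.2
      refine hs.imp (fun hs => ⟨s, ?_⟩) fun hs => ⟨s, ?_⟩ <;>
        exact_mod_cast Int.natCast_modEq_iff.2 hs.symm
    · exact .inr this

theorem omega_bd {M : ℕ} (hM : 7 ≤ M) {x y ε t : ℝ} (ht : t = 2 * 3.14159265358979323846 / M)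
    (h : 1 / 10 ^ 20 + t ^ 6 * (7 / 4320) + |1 - t ^ 2 / 2 + t ^ 4 / 24 - x| +
      |t - t ^ 3 / 6 + t ^ 5 / 120 - y| ≤ ε) : ‖ee (1 / M) - ⟨x, y⟩‖ ≤ ε := by
  have hM' : (7 : ℝ) ≤ M := by exact_mod_cast hM
  have p1 := Real.pi_gt_d20
  have p2 := Real.pi_lt_d20
  have t0 : 0 ≤ t := by rw [ht]; positivity
  have t1 : t ≤ 1 := by rw [ht, div_le_one (by linarith)]; linarith
  have nt : ‖(t : ℂ) * I‖ = t := by rw [norm_mul, norm_I, mul_one, norm_real, Real.norm_of_nonneg t0]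
  have b1 := Complex.exp_bound (x := t * I) (by rw [nt]; exact t1) (n := 6) (by norm_num)
  rw [nt] at b1
  have e1 : ∑ m ∈ range 6, ((t : ℂ) * I) ^ m / (m.factorial : ℂ) =
      (1 - t ^ 2 / 2 + t ^ 4 / 24 : ℝ) + (t - t ^ 3 / 6 + t ^ 5 / 120 : ℝ) * I := by
    simp only [sum_range_succ, range_zero, sum_empty, Nat.factorial]
    push_cast
    have := I_mul_I
    linear_combination ((t : ℂ) ^ 2 / 2 + t ^ 3 / 6 * I + t ^ 4 / 24 * (I * I - 1) +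
      t ^ 5 / 120 * I * (I * I - 1)) * this
  rw [e1] at b1
  have b2 : ‖ee (1 / M) - exp (t * I)‖ ≤ 1 / 10 ^ 20 := by
    have : ee (1 / M) - exp (t * I) = exp (t * I) * (exp (I * (2 * π * (1 / M) - t : ℝ)) - 1) := by
      unfold ee; rw [mul_sub, ← Complex.exp_add, mul_one]; congr 2; push_cast; ring
    rw [this, norm_mul, Complex.norm_exp_ofReal_mul_I, one_mul]
    refine Real.norm_exp_I_mul_ofReal_sub_one_le.trans ?_
    have : 2 * π * (1 / M) - t = 2 * (π - 3.14159265358979323846) / M := by rw [ht]; ring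
    rw [this, Real.norm_of_nonneg (div_nonneg (by linarith) (by linarith)), div_le_iff₀ (by linarith)]
    norm_num at p2 ⊢
    linarith
  have b3 : ‖((1 - t ^ 2 / 2 + t ^ 4 / 24 : ℝ) + (t - t ^ 3 / 6 + t ^ 5 / 120 : ℝ) * I : ℂ) -
      ⟨x, y⟩‖ ≤ |1 - t ^ 2 / 2 + t ^ 4 / 24 - x| + |t - t ^ 3 / 6 + t ^ 5 / 120 - y| := by
    refine (norm_le_abs_re_add_abs_im _).trans (le_of_eq ?_)
    simp only [sub_re, add_re, ofReal_re, re_ofReal_mul, I_re, mul_zero, add_zero, sub_im, add_im,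
      ofReal_im, im_ofReal_mul, I_im, mul_one, zero_add]
  have := norm_sub_le_norm_sub_add_norm_sub (ee (1 / M)) (exp (t * I)) ⟨x, y⟩
  have := norm_sub_le_norm_sub_add_norm_sub (exp (t * I))
    ((1 - t ^ 2 / 2 + t ^ 4 / 24 : ℝ) + (t - t ^ 3 / 6 + t ^ 5 / 120 : ℝ) * I : ℂ) ⟨x, y⟩
  have e2 : ((Nat.succ 6 : ℕ) : ℝ) * (((Nat.factorial 6 : ℕ) : ℝ) * (6 : ℕ))⁻¹ = 7 / 4320 := by
    norm_num [Nat.factorial]
  rw [e2] at b1
  linarith

end Pool.Agent.MP_60c1b5_an.H51
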