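import Mathlib

/-! Sub-action inequality on the circle from finitely many node inequalities. -/

namespace Pool.Agent.MP_60c1b5_an.H51

open MeasureTheory Complex
open scoped Real

noncomputable def ee (x : ℝ) : ℂ := Complex.exp ((2 * π * x : ℝ) * I)

theorem ee_add (x y : ℝ) : ee (x + y) = ee x * ee y := by
  unfold ee; rw [← Complex.exp_add]; congr 1; push_cast; ring

theorem norm_ee (x : ℝ) : ‖ee x‖ = 1 := Complex.norm_exp_ofReal_mul_I _

theorem ee_int (n : ℤ) : ee n = 1 := by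
  unfold ee
  rw [← Complex.exp_int_mul_two_pi_mul_I n]; congr 1; push_cast; ring

theorem fourier_ee (k : ℤ) (x : ℝ) : fourier k (x : UnitAddCircle) = ee (k * x) := by
  rw [fourier_coe_apply]; unfold ee; congr 1; push_cast; ring

theorem ee_taylor {t : ℝ} (ht : |t| ≤ 1 / 7) :
    ‖ee t - 1 - (2 * π * t : ℝ) * I‖ ≤ 40 * t ^ 2 := by
  have hp := Real.pi_lt_d2
  have hp0 := Real.pi_pos
  have hn : ‖((2 * π * t : ℝ) : ℂ) * I‖ = 2 * π * |t| := by
    rw [norm_mul, norm_I, mul_one, norm_real, Real.norm_eq_abs, abs_mul, abs_of_pos (by positivity)]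
  have h1 : ‖((2 * π * t : ℝ) : ℂ) * I‖ ≤ 1 := by
    rw [hn]; nlinarith [abs_nonneg t]
  refine (Complex.norm_exp_sub_one_sub_id_le h1).trans ?_
  rw [hn, mul_pow, sq_abs]
  have : (2 * π) ^ 2 ≤ 40 := by nlinarith
  nlinarith [sq_nonneg t]

theorem ee_interp {x l s : ℝ} (hl : 0 ≤ l) (hl' : l ≤ 1 / 7) (h0 : 0 ≤ s) (h1 : s ≤ 1) :
    ‖ee (x + s * l) - ((1 - s : ℝ) * ee x + (s : ℝ) * ee (x + l))‖ ≤ 40 * l ^ 2 * (s * (1 - s)) := by
  have a1 : |(-(s * l))| ≤ 1 / 7 := by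
    rw [abs_neg, abs_of_nonneg (by positivity)]; nlinarith
  have a2 : |(1 - s) * l| ≤ 1 / 7 := by
    rw [abs_of_nonneg (mul_nonneg (by linarith) hl)]; nlinarith
  have t1 := ee_taylor a1
  have t2 := ee_taylor a2
  have e1 : ee x = ee (x + s * l) * ee (-(s * l)) := by rw [← ee_add]; congr 1; ring
  have e2 : ee (x + l) = ee (x + s * l) * ee ((1 - s) * l) := by rw [← ee_add]; congr 1; ring
  have key : ee (x + s * l) - ((1 - s : ℝ) * ee x + (s : ℝ) * ee (x + l)) =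
      -(ee (x + s * l) * ((1 - s : ℝ) * (ee (-(s * l)) - 1 - (2 * π * (-(s * l)) : ℝ) * I) +
        (s : ℝ) * (ee ((1 - s) * l) - 1 - (2 * π * ((1 - s) * l) : ℝ) * I))) := by
    rw [e1, e2]
    have : ee (x + s * l) * ee (-(s * l)) = ee x := e1.symm
    generalize ee (x + s * l) = A
    push_cast; ring
  rw [key, norm_neg, norm_mul, norm_ee, one_mul]
  refine (norm_add_le _ _).trans ?_
  rw [norm_mul, norm_mul, norm_real, norm_real, Real.norm_of_nonneg h0,
    Real.norm_of_nonneg (by linarith)]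
  have b1 := mul_le_mul_of_nonneg_left t1 (show 0 ≤ 1 - s by linarith)
  have b2 := mul_le_mul_of_nonneg_left t2 h0
  nlinarith

/-- piecewise linear interpolation of a sequence -/
noncomputable def L (u : ℤ → ℝ) (y : ℝ) : ℝ := u ⌊y⌋ + Int.fract y * (u (⌊y⌋ + 1) - u ⌊y⌋)

theorem L_cell (u : ℤ → ℝ) (i : ℤ) {y : ℝ} (h1 : (i : ℝ) ≤ y) (h2 : y ≤ i + 1) :
    L u y = u i + (y - i) * (u (i + 1) - u i) := by
  unfold L
  rcases h2.lt_or_eq with h | h
  · have : ⌊y⌋ = i := Int.floor_eq_iff.2 ⟨h1, h⟩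
    rw [Int.fract, this]
  · have : y = ((i + 1 : ℤ) : ℝ) := by push_cast; exact h
    rw [this, Int.floor_intCast, Int.fract_intCast]; push_cast; ring

theorem L_interp (u : ℤ → ℝ) (i : ℤ) {y0 y1 s : ℝ} (h1 : (i : ℝ) ≤ y0) (h2 : y0 ≤ y1)
    (h3 : y1 ≤ i + 1) (h0 : 0 ≤ s) (hs : s ≤ 1) :
    L u (y0 + s * (y1 - y0)) = (1 - s) * L u y0 + s * L u y1 := by
  rw [L_cell u i h1 (by linarith), L_cell u i (y := y1) (by linarith) h3,
    L_cell u i (y := y0 + s * (y1 - y0)) (by nlinarith) (by nlinarith)]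
  ring

theorem L_per {u : ℤ → ℝ} {D : ℕ} (hu : ∀ i n : ℤ, u (i + D * n) = u i) (y : ℝ) (n : ℤ) :
    L u (y + D * n) = L u y := by
  have : (D : ℝ) * n = ((D * n : ℤ) : ℝ) := by push_cast; ring
  unfold L
  rw [this, Int.floor_add_intCast, Int.fract_add_intCast, hu, add_right_comm, hu]

theorem L_meas (u : ℤ → ℝ) : Measurable (L u) := by
  have hu : Measurable u := measurable_from_top
  have h1 : Measurable fun y : ℝ => u ⌊y⌋ := hu.comp Int.measurable_floor
  have h2 : Measurable fun y : ℝ => u (⌊y⌋ + 1) :=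
    (measurable_from_top (f := fun i : ℤ => u (i + 1))).comp Int.measurable_floor
  exact h1.add (measurable_fract.mul (h2.sub h1))

theorem L_bdd {u : ℤ → ℝ} {B : ℝ} (hB : ∀ i, |u i| ≤ B) (y : ℝ) : |L u y| ≤ B := by
  have h0 := Int.fract_nonneg y
  have h1 := (Int.fract_lt_one y).le
  have a := abs_le.1 (hB ⌊y⌋)
  have b := abs_le.1 (hB (⌊y⌋ + 1))
  unfold L
  rw [abs_le]; constructor <;> nlinarith

noncomputable def rp (z : UnitAddCircle) : ℝ := (AddCircle.equivIco 1 0 z : ℝ)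

theorem rp_coe (z : UnitAddCircle) : (rp z : UnitAddCircle) = z :=
  (AddCircle.equivIco 1 0).symm_apply_apply z

theorem rp_mem (z : UnitAddCircle) : 0 ≤ rp z ∧ rp z < 1 := by
  have := (AddCircle.equivIco 1 0 z).2
  simpa [rp] using this

theorem rp_meas : Measurable rp :=
  measurable_subtype_coe.comp (AddCircle.measurableEquivIco 1 0).measurable

noncomputable def G (u : ℤ → ℝ) (D : ℕ) (z : UnitAddCircle) : ℝ := L u (D * rp z)

theorem G_coe {u : ℤ → ℝ} {D : ℕ} (hu : ∀ i n : ℤ, u (i + D * n) = u i) (x : ℝ) :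
    G u D (x : UnitAddCircle) = L u (D * x) := by
  have h := rp_coe (x : UnitAddCircle)
  rw [← sub_eq_zero, ← AddCircle.coe_sub, AddCircle.coe_eq_zero_iff] at h
  obtain ⟨n, hn⟩ := h
  have : (D : ℝ) * rp (x : UnitAddCircle) = D * x + D * n := by
    rw [← mul_add]; congr 1; simp at hn; linarith
  unfold G
  rw [this, L_per hu]

theorem G_meas (u : ℤ → ℝ) (D : ℕ) : Measurable (G u D) :=
  (L_meas u).comp (rp_meas.const_mul _)

theorem G_int {u : ℤ → ℝ} {B : ℝ} (hB : ∀ i, |u i| ≤ B) (D : ℕ) (μ : Measure UnitAddCircle)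
    [IsProbabilityMeasure μ] (k : ℕ) : Integrable (fun z => G u D (k • z)) μ := by
  refine Integrable.of_bound ((G_meas u D).comp (by fun_prop)).aestronglyMeasurable B ?_
  exact ae_of_all _ fun z => L_bdd hB _

theorem G_inv (u : ℤ → ℝ) (D : ℕ) {μ : Measure UnitAddCircle} {k : ℕ}
    (h : Measure.map (fun x : UnitAddCircle => k • x) μ = μ) :
    ∫ z, G u D (k • z) ∂μ = ∫ z, G u D (1 • z) ∂μ := by
  simp only [one_smul]
  conv_rhs => rw [← h]
  rw [integral_map (by fun_prop) (G_meas u D).aestronglyMeasurable]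

/-- value of the corrected potential at the node `j / (6 D)` -/
noncomputable def Phi (D : ℕ) (a b c : ℝ) (u v : ℤ → ℝ) (y : ℝ) : ℝ :=
  a * (ee (y / (6 * D))).re + b * (ee (y / (6 * D))).im + c +
    (L u (y / 6) - L u (2 * y / 6)) + (L v (y / 6) - L v (3 * y / 6))

theorem Phi_neg {D : ℕ} (hD : 2 ≤ D) {a b c σ : ℝ} {u v : ℤ → ℝ} (j : ℕ) {s : ℝ} (h0 : 0 < s)
    (h1 : s < 1) (p0 : Phi D a b c u v j ≤ 0) (p1 : Phi D a b c u v (j + 1 : ℕ) ≤ 0)
    (p2 : Phi D a b c u v j ≤ -σ ∨ Phi D a b c u v (j + 1 : ℕ) ≤ -σ)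
    (hσ : (|a| + |b|) * (40 * (1 / (6 * D)) ^ 2) < σ) : Phi D a b c u v (j + s) < 0 := by
  have hD' : (2 : ℝ) ≤ D := by exact_mod_cast hD
  have hl : (1 : ℝ) / (6 * D) ≤ 1 / 7 := one_div_le_one_div_of_le (by norm_num) (by linarith)
  have hi := ee_interp (x := j / (6 * D)) (by positivity) hl h0.le h1.le
  have e1 : (j : ℝ) / (6 * D) + s * (1 / (6 * D)) = (j + s) / (6 * D) := by ring
  have e2 : (j : ℝ) / (6 * D) + 1 / (6 * D) = ((j + 1 : ℕ) : ℝ) / (6 * D) := by push_cast; ring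
  rw [e1, e2] at hi
  have hre := (abs_re_le_norm _).trans hi
  have him := (abs_im_le_norm _).trans hi
  simp only [sub_re, add_re, re_ofReal_mul, sub_im, add_im, im_ofReal_mul] at hre him
  have hL : ∀ (w : ℤ → ℝ) (k : ℕ), k * (j + 1) ≤ 6 * (k * j / 6 + 1) →
      L w (k * (j + s) / 6) = (1 - s) * L w (k * j / 6) + s * L w (k * (j + 1 : ℕ) / 6) := by
    intro w k hk
    have q1 : ((((k * j / 6 : ℕ) : ℤ)) : ℝ) ≤ k * j / 6 := by
      rw [Int.cast_natCast]; refine Nat.cast_div_le.trans (le_of_eq ?_); push_cast; ring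
    have q2 : (k : ℝ) * (j + 1 : ℕ) / 6 ≤ ((((k * j / 6 : ℕ) : ℤ)) : ℝ) + 1 := by
      rw [Int.cast_natCast, div_le_iff₀ (by norm_num)]
      have : ((k * (j + 1) : ℕ) : ℝ) ≤ ((6 * (k * j / 6 + 1) : ℕ) : ℝ) := by exact_mod_cast hk
      rw [Nat.cast_mul, Nat.cast_mul, Nat.cast_add (k * j / 6)] at this
      simp only [Nat.cast_ofNat, Nat.cast_one] at this
      linarith
    rw [← L_interp w _ q1 ?_ q2 h0.le h1.le]
    · congr 1; push_cast; ring
    · push_cast; have : (0 : ℝ) ≤ k := Nat.cast_nonneg k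
      nlinarith
  have u1 := hL u 1 (by omega)
  have u2 := hL u 2 (by omega)
  have v1 := hL v 1 (by omega)
  have v3 := hL v 3 (by omega)
  simp only [Nat.cast_one, one_mul, Nat.cast_ofNat] at u1 u2 v1 v3
  unfold Phi at *
  rw [u1, u2, v1, v3]
  set E := 40 * (1 / (6 * (D : ℝ))) ^ 2
  have hE : 0 ≤ E := by positivity
  set R := (ee ((j + s) / (6 * D))).re - ((1 - s) * (ee (j / (6 * D))).re +
    s * (ee (((j + 1 : ℕ) : ℝ) / (6 * D))).re) with hR
  set J := (ee ((j + s) / (6 * D))).im - ((1 - s) * (ee (j / (6 * D))).im +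
    s * (ee (((j + 1 : ℕ) : ℝ) / (6 * D))).im) with hJ
  have hs : 0 < s * (1 - s) := mul_pos h0 (by linarith)
  have b1 : a * R ≤ |a| * (E * (s * (1 - s))) :=
    (le_abs_self _).trans (by rw [abs_mul]; exact mul_le_mul_of_nonneg_left hre (abs_nonneg _))
  have b2 : b * J ≤ |b| * (E * (s * (1 - s))) :=
    (le_abs_self _).trans (by rw [abs_mul]; exact mul_le_mul_of_nonneg_left him (abs_nonneg _))
  have b3 : (|a| + |b|) * E * (s * (1 - s)) < σ * (s * (1 - s)) := mul_lt_mul_of_pos_right hσ hs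
  have hσ0 : 0 ≤ σ := le_trans (by positivity) hσ.le
  have q0 := mul_le_mul_of_nonneg_left p0 (show 0 ≤ 1 - s by linarith)
  have q1 := mul_le_mul_of_nonneg_left p1 h0.le
  rcases p2 with p2 | p2
  · have q2 := mul_le_mul_of_nonneg_left p2 (show 0 ≤ 1 - s by linarith)
    have : σ * (s * (1 - s)) ≤ σ * (1 - s) :=
      mul_le_mul_of_nonneg_left (by nlinarith) hσ0
    nlinarith
  · have q2 := mul_le_mul_of_nonneg_left p2 h0.le
    have : σ * (s * (1 - s)) ≤ σ * s := mul_le_mul_of_nonneg_left (by nlinarith) hσ0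
    nlinarith

theorem core {D : ℕ} (hD : 2 ≤ D) {a b c σ B : ℝ} {u v : ℤ → ℝ}
    (hu : ∀ i n : ℤ, u (i + D * n) = u i) (hv : ∀ i n : ℤ, v (i + D * n) = v i)
    (bu : ∀ i, |u i| ≤ B) (bv : ∀ i, |v i| ≤ B)
    (p0 : ∀ j : ℕ, j ≤ 6 * D → Phi D a b c u v j ≤ 0)
    (p2 : ∀ j : ℕ, j < 6 * D → Phi D a b c u v j ≤ -σ ∨ Phi D a b c u v (j + 1 : ℕ) ≤ -σ)
    (hσ : (|a| + |b|) * (40 * (1 / (6 * D)) ^ 2) < σ)
    (μ : Measure UnitAddCircle) [IsProbabilityMeasure μ]
    (h2 : Measure.map (fun x : UnitAddCircle => (2 : ℕ) • x) μ = μ)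
    (h3 : Measure.map (fun x : UnitAddCircle => (3 : ℕ) • x) μ = μ) :
    a * (∫ z, fourier 1 z ∂μ).re + b * (∫ z, fourier 1 z ∂μ).im + c ≤ 0 ∧
    (a * (∫ z, fourier 1 z ∂μ).re + b * (∫ z, fourier 1 z ∂μ).im + c = 0 →
      μ {z | (6 * D) • z = 0}ᶜ = 0) := by
  have hD' : (2 : ℝ) ≤ D := by exact_mod_cast hD
  set Ψ : UnitAddCircle → ℝ := fun z => a * (fourier 1 z : ℂ).re + b * (fourier 1 z : ℂ).im + c +
    (G u D (1 • z) - G u D (2 • z)) + (G v D (1 • z) - G v D (3 • z)) with hΨ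
  have hP : ∀ z, Ψ z = Phi D a b c u v (6 * D * rp z) := by
    intro z
    have hk : ∀ (w : ℤ → ℝ) (k : ℕ), (∀ i n : ℤ, w (i + D * n) = w i) →
        G w D (k • z) = L w (k * (6 * D * rp z) / 6) := by
      intro w k hw
      conv_lhs => rw [← rp_coe z, ← AddCircle.coe_nsmul, G_coe hw]
      congr 1; rw [nsmul_eq_mul]; ring
    have hf : (fourier 1 z : ℂ) = ee (6 * D * rp z / (6 * D)) := by
      conv_lhs => rw [← rp_coe z, fourier_ee]
      congr 1; push_cast; field_simp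
    simp only [hΨ, Phi, hk u _ hu, hk v _ hv, hf, Nat.cast_one, one_mul, Nat.cast_ofNat]
  have hpt : ∀ z, Ψ z ≤ 0 ∧ ((6 * D) • z ≠ 0 → Ψ z < 0) := by
    intro z
    obtain ⟨r0, r1⟩ := rp_mem z
    have y0 : 0 ≤ 6 * D * rp z := by positivity
    have y1 : 6 * D * rp z < (6 * D : ℕ) := by push_cast; nlinarith
    have hj : ⌊6 * D * rp z⌋₊ < 6 * D := (Nat.floor_lt y0).2 y1
    have f0 := Nat.floor_le y0
    have f1 := Nat.lt_floor_add_one (6 * D * rp z)
    rw [hP]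
    rcases f0.lt_or_eq with f | f
    · have := Phi_neg hD ⌊6 * D * rp z⌋₊ (s := 6 * D * rp z - ⌊6 * D * rp z⌋₊) (by linarith)
        (by linarith) (p0 _ hj.le) (p0 _ hj) (p2 _ hj) hσ
      rw [add_sub_cancel] at this
      exact ⟨this.le, fun _ => this⟩
    · refine ⟨f ▸ p0 _ hj.le, fun h => absurd ?_ h⟩
      rw [← rp_coe z, ← AddCircle.coe_nsmul, AddCircle.coe_eq_zero_iff]
      refine ⟨⌊6 * D * rp z⌋₊, ?_⟩
      rw [nsmul_eq_mul]; push_cast
      simp only [zsmul_eq_mul, Int.cast_natCast, mul_one]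
      exact f
  have hF : Integrable (fun z : UnitAddCircle => (fourier 1 z : ℂ)) μ :=
    Integrable.of_bound (fourier 1).continuous.aestronglyMeasurable 1
      (ae_of_all _ fun z => by simp [fourier_apply])
  have i1 : Integrable (fun z : UnitAddCircle => a * (fourier 1 z : ℂ).re) μ := hF.re.const_mul a
  have i2 : Integrable (fun z : UnitAddCircle => b * (fourier 1 z : ℂ).im) μ := hF.im.const_mul b
  have i12 : Integrable (fun z : UnitAddCircle =>
      a * (fourier 1 z : ℂ).re + b * (fourier 1 z : ℂ).im) μ := i1.add i2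
  have i3 : Integrable (fun z : UnitAddCircle =>
      a * (fourier 1 z : ℂ).re + b * (fourier 1 z : ℂ).im + c) μ := i12.add (integrable_const c)
  have i4 : Integrable (fun z : UnitAddCircle => G u D (1 • z) - G u D (2 • z)) μ :=
    (G_int bu D μ 1).sub (G_int bu D μ 2)
  have i5 : Integrable (fun z : UnitAddCircle => G v D (1 • z) - G v D (3 • z)) μ :=
    (G_int bv D μ 1).sub (G_int bv D μ 3)
  have i34 : Integrable (fun z : UnitAddCircle =>
      a * (fourier 1 z : ℂ).re + b * (fourier 1 z : ℂ).im + c +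
        (G u D (1 • z) - G u D (2 • z))) μ := i3.add i4
  have hI : Integrable Ψ μ := i34.add i5
  have hval : ∫ z, Ψ z ∂μ =
      a * (∫ z, fourier 1 z ∂μ).re + b * (∫ z, fourier 1 z ∂μ).im + c := by
    simp only [hΨ]
    rw [integral_add i34 i5, integral_add i3 i4, integral_add i12 (integrable_const c),
      integral_add i1 i2, integral_sub (G_int bu D μ 1) (G_int bu D μ 2),
      integral_sub (G_int bv D μ 1) (G_int bv D μ 3), G_inv u D h2, G_inv v D h3,
      integral_const_mul, integral_const_mul]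
    have r1 := integral_re hF
    have r2 := integral_im hF
    simp only [RCLike.re_to_complex, RCLike.im_to_complex] at r1 r2
    rw [r1, r2]; simp
  rw [← hval]
  refine ⟨integral_nonpos fun z => (hpt z).1, fun h => ?_⟩
  have h' : ∫ z, -Ψ z ∂μ = 0 := by rw [integral_neg, h, neg_zero]
  rw [integral_eq_zero_iff_of_nonneg (fun z => neg_nonneg.2 (hpt z).1) hI.neg] at h'
  refine measure_mono_null (fun z hz => ?_) h'
  intro hz'
  have := (hpt z).2 hz
  simp only [Set.mem_ofPred_eq, Pi.zero_apply, neg_eq_zero] at hz'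
  linarith

end Pool.Agent.MP_60c1b5_an.H51
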