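import Pool.Agent.MP_60c1b5_an.H51.DataA
import Pool.Agent.MP_60c1b5_an.H51.DataB
import Pool.Agent.MP_60c1b5_an.H51.DataC
import Pool.Agent.MP_60c1b5_an.H51.Attain

/-! The range of a Fourier coefficient is the hexagon. -/

namespace Pool.Agent.MP_60c1b5_an.H51

open MeasureTheory Complex Finset
open scoped Real

theorem ee_nat (m N : ℕ) : ee (m / N) = exp (2 * π * I / N) ^ m := by
  unfold ee; rw [← Complex.exp_nat_mul]; congr 1; push_cast; ring

theorem pr_one : pr 1 1 = 1 := by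
  have := ee_int 1
  simpa [pr] using this

theorem pr_pow (N n : ℕ) (hN : N ≠ 0) :
    pr N n = (∑ t ∈ range n, exp (2 * π * I / N) ^ (2 ^ t % N)) / n := by
  unfold pr
  congr 1
  refine sum_congr rfl fun t _ => ?_
  have := ee_nat (2 ^ t) N
  push_cast at this
  rw [this, ← pow_eq_pow_mod _ (Complex.isPrimitiveRoot_exp N hN).pow_eq_one]

theorem pr_five : pr 5 4 = -1 / 4 := by
  have h := (Complex.isPrimitiveRoot_exp 5 (by norm_num)).geom_sum_eq_zero (by norm_num)
  rw [pr_pow 5 4 (by norm_num)]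
  generalize exp (2 * π * I / (5 : ℕ)) = z at *
  simp only [sum_range_succ, range_zero, sum_empty] at h ⊢
  norm_num at h ⊢
  linear_combination h / 4

theorem pr_eta : pr 431 43 = eta := by
  unfold pr eta ee
  push_cast
  congr 1
  refine sum_congr rfl fun t _ => ?_
  congr 1; ring

theorem encl : -0.05 < (pr 23 11).re ∧ (pr 23 11).re < -0.04 ∧ 0.2 < (pr 23 11).im ∧
    0.1 < eta.re ∧ eta.re < 0.2 ∧ 0.1 < eta.im := by
  have a := abs_le.1 certA.approx.2
  have b := abs_le.1 certB.approx.1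
  have b' := abs_le.1 certB.approx.2
  have c := abs_le.1 certC.approx.1
  rw [abcA.1, abcA.2.1, abcA.2.2] at a
  rw [abcB.1, abcB.2.1, abcB.2.2] at b b'
  rw [abcC.1, abcC.2.1, abcC.2.2] at c
  rw [pr_eta] at b' c
  obtain ⟨a1, a2⟩ := a
  obtain ⟨b1, b2⟩ := b
  obtain ⟨b3, b4⟩ := b'
  obtain ⟨c1, c2⟩ := c
  refine ⟨?_, ?_, ?_, ?_, ?_, ?_⟩ <;> linarith

theorem pr_23 : pr 23 11 = (-1 + Real.sqrt 23 * I) / 22 := by
  have h := (Complex.isPrimitiveRoot_exp 23 (by norm_num)).geom_sum_eq_zero (by norm_num)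
  have h1 := (Complex.isPrimitiveRoot_exp 23 (by norm_num)).pow_eq_one
  have e : (22 * pr 23 11 + 1) ^ 2 = -23 := by
    rw [pr_pow 23 11 (by norm_num)]
    generalize exp (2 * π * I / (23 : ℕ)) = z at *
    simp only [sum_range_succ, range_zero, sum_empty] at h ⊢
    norm_num at h ⊢
    linear_combination 24 * h + 4 * (5 * z ^ 1 + 4 * z ^ 2 + 3 * z ^ 3 + 2 * z ^ 4 + 2 * z ^ 5 +
      2 * z ^ 6 + 2 * z ^ 7 + 2 * z ^ 8 + 1 * z ^ 9 + 2 * z ^ 11 + 1 * z ^ 13) * h1
  have s : ((Real.sqrt 23 : ℝ) * I : ℂ) ^ 2 = -23 := by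
    rw [mul_pow, I_sq, ← ofReal_pow, Real.sq_sqrt (by norm_num)]; norm_num
  rcases sq_eq_sq_iff_eq_or_eq_neg.1 (e.trans s.symm) with h | h
  · linear_combination h / 22
  · have := congrArg Complex.im h
    have h2 := encl.2.2.1
    have h3 := Real.sqrt_nonneg 23
    simp at this
    linarith

theorem strip {s : Set ℂ} (hs : Convex ℝ s) {p q z : ℂ} (hp : p ∈ s) (hq : q ∈ s)
    (hp' : (starRingEnd ℂ) p ∈ s) (hq' : (starRingEnd ℂ) q ∈ s) (hpq : p.re < q.re)
    (h1 : p.re ≤ z.re) (h2 : z.re ≤ q.re) (c1 : cr p q z ≤ 0)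
    (c2 : cr p q ((starRingEnd ℂ) z) ≤ 0) : z ∈ s := by
  have hd : 0 < q.re - p.re := by linarith
  set a := (z.re - p.re) / (q.re - p.re) with ha
  have a0 : 0 ≤ a := div_nonneg (by linarith) hd.le
  have a1 : a ≤ 1 := (div_le_one hd).2 (by linarith)
  have ha' : a * (q.re - p.re) = z.re - p.re := div_mul_cancel₀ _ hd.ne'
  have t1 := hs hp hq (sub_nonneg.2 a1) a0 (by ring)
  have t2 := hs hp' hq' (sub_nonneg.2 a1) a0 (by ring)
  set τ := (1 - a) * p.im + a * q.im with hτ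
  have e1 : (1 - a) • p + a • q = ⟨z.re, τ⟩ := by
    apply Complex.ext <;> simp [hτ]; linarith
  have e2 : (1 - a) • (starRingEnd ℂ) p + a • (starRingEnd ℂ) q = ⟨z.re, -τ⟩ := by
    apply Complex.ext <;> simp [hτ] <;> linarith
  rw [e1] at t1
  rw [e2] at t2
  simp only [cr, conj_re, conj_im] at c1 c2
  have u1 : z.im ≤ τ := by
    refine le_of_mul_le_mul_right ?_ hd
    rw [← ha'] at c1; rw [hτ]; linarith
  have u2 : -z.im ≤ τ := by
    refine le_of_mul_le_mul_right ?_ hd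
    rw [← ha'] at c2; rw [hτ]; linarith
  rcases (show 0 ≤ τ by linarith).eq_or_lt with h | h
  · have : z = ⟨z.re, τ⟩ := Complex.ext rfl (by simp only; linarith)
    rwa [this]
  · have := hs t1 t2 (a := (τ + z.im) / (2 * τ)) (b := (τ - z.im) / (2 * τ))
      (div_nonneg (by linarith) (by linarith)) (div_nonneg (by linarith) (by linarith))
      (by field_simp; ring)
    refine (congrArg (· ∈ s) ?_).mp this
    apply Complex.ext <;> simp only [add_re, add_im, smul_re, smul_im, smul_eq_mul] <;>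
      field_simp <;> ring

theorem conj_23 : (starRingEnd ℂ) (pr 23 11) = (-1 - Real.sqrt 23 * I) / 22 := by
  rw [pr_23, map_div₀, map_add, map_mul, conj_ofReal, conj_I, map_neg, map_one, map_ofNat]; ring

theorem mem_hex {z : ℂ} (a1 : cr (pr 5 4) (pr 23 11) z ≤ 0)
    (a2 : cr (pr 5 4) (pr 23 11) ((starRingEnd ℂ) z) ≤ 0) (b1 : cr (pr 23 11) (pr 431 43) z ≤ 0)
    (b2 : cr (pr 23 11) (pr 431 43) ((starRingEnd ℂ) z) ≤ 0) (c1 : cr (pr 431 43) (pr 1 1) z ≤ 0)
    (c2 : cr (pr 431 43) (pr 1 1) ((starRingEnd ℂ) z) ≤ 0) : z ∈ hexagon := by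
  obtain ⟨e1, e2, e3, e4, e5, e6⟩ := encl
  rw [pr_five] at a1 a2
  rw [pr_eta] at b1 b2 c1 c2
  rw [pr_one] at c1 c2
  have hc : Convex ℝ hexagon := convex_convexHull ℝ _
  have m1 : (1 : ℂ) ∈ hexagon := subset_convexHull ℝ _ (by simp)
  have m2 : (-1 / 4 : ℂ) ∈ hexagon := subset_convexHull ℝ _ (by simp)
  have m3 : pr 23 11 ∈ hexagon := subset_convexHull ℝ _ (by rw [pr_23]; simp)
  have m4 : (starRingEnd ℂ) (pr 23 11) ∈ hexagon := subset_convexHull ℝ _ (by rw [conj_23]; simp)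
  have m5 : eta ∈ hexagon := subset_convexHull ℝ _ (by simp)
  have m6 : (starRingEnd ℂ) eta ∈ hexagon := subset_convexHull ℝ _ (by simp)
  have r1 : (-1 / 4 : ℂ).re = -1 / 4 := by norm_num
  have r2 : (-1 / 4 : ℂ).im = 0 := by norm_num
  have m2' : (starRingEnd ℂ) (-1 / 4 : ℂ) ∈ hexagon := by
    rwa [Complex.conj_eq_iff_im.2 r2]
  have x0 : -1 / 4 ≤ z.re := by
    simp only [cr, conj_re, conj_im, r1, r2] at a1 a2
    nlinarith
  have x1 : z.re ≤ 1 := by
    simp only [cr, conj_re, conj_im, one_re, one_im] at c1 c2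
    nlinarith
  rcases le_total z.re (pr 23 11).re with h | h
  · exact strip hc m2 m3 m2' m4 (by rw [r1]; linarith) (by rwa [r1]) h a1 a2
  · rcases le_total z.re eta.re with h' | h'
    · exact strip hc m3 m5 m4 m6 (by linarith) h h' b1 b2
    · exact strip hc m5 m1 m6 (by rwa [map_one]) (by rw [one_re]; linarith) h' x1 c1 c2

theorem edge_k {N1 n1 N2 n2 : ℕ} {a b c δ σ : ℝ} {u v : ℤ → ℝ}
    (C : Cert N1 n1 N2 n2 a b c δ σ u v) (hpq : (pr N1 n1).re + 1 / 10 ≤ (pr N2 n2).re)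
    {μ : ProbabilityMeasure UnitAddCircle} (hμ : Inv23 μ) {k : ℤ} (hk : k ≠ 0) :
    cr (pr N1 n1) (pr N2 n2) (coef μ k) ≤ 0 ∧
      (¬ FinSupp μ → cr (pr N1 n1) (pr N2 n2) (coef μ k) < 0) := by
  have hm : Measurable fun x : UnitAddCircle => k • x := by fun_prop
  have : IsProbabilityMeasure (Measure.map (fun x : UnitAddCircle => k • x)
    (μ : Measure UnitAddCircle)) := Measure.isProbabilityMeasure_map hm.aemeasurable
  have inv : ∀ m : ℕ, Measure.map (fun x : UnitAddCircle => m • x) (μ : Measure UnitAddCircle) = μ →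
      Measure.map (fun x : UnitAddCircle => m • x) (Measure.map (fun x : UnitAddCircle => k • x)
        (μ : Measure UnitAddCircle)) =
      Measure.map (fun x : UnitAddCircle => k • x) (μ : Measure UnitAddCircle) := by
    intro m h
    have hm' : Measurable fun x : UnitAddCircle => m • x := by fun_prop
    conv_rhs => rw [← h]
    rw [Measure.map_map hm' hm, Measure.map_map hm hm']
    congr 1
    funext x
    exact smul_comm m k x
  have key := C.edge hpq _ (inv 2 hμ.1) (inv 3 hμ.2)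
  have e : ∫ z, fourier 1 z ∂(Measure.map (fun x : UnitAddCircle => k • x)
      (μ : Measure UnitAddCircle)) = coef μ k := by
    rw [integral_map hm.aemeasurable (fourier 1).continuous.aestronglyMeasurable]
    simp only [coef, fourier_apply, one_smul]
  rw [e] at key
  refine ⟨key.1, fun h => key.1.lt_of_ne fun h0 => h ?_⟩
  have h1 := le_antisymm ((Measure.le_map_apply hm.aemeasurable _).trans (key.2 h0).le) zero_le
  have hD := C.hD
  have hf : {u : UnitAddCircle | (6 * (N1 * N2) * k.natAbs) • u = 0}.Finite :=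
    AddCircle.finite_torsion 1 (Nat.mul_pos (by omega) (Int.natAbs_pos.2 hk))
  refine ⟨hf.toFinset, measure_mono_null (fun x hx => ?_) h1⟩
  intro hx'
  apply hx
  rw [Set.Finite.coe_toFinset, Set.mem_ofPred_eq, mul_smul]
  have hx'' : (6 * (N1 * N2)) • k • x = 0 := hx'
  rcases Int.natAbs_eq k with h | h
  · rwa [h, natCast_zsmul] at hx''
  · rwa [h, neg_smul, smul_neg, neg_eq_zero, natCast_zsmul] at hx''

theorem main (k : ℤ) (hk : k ≠ 0) :
    (∀ μ, Inv23 μ → coef μ k ∈ hexagon ∧ (¬ FinSupp μ → coef μ k ∈ interior hexagon)) ∧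
    ∀ z ∈ hexagon, ∃ ν, Inv23 ν ∧ FinSupp ν ∧ coef ν k = z := by
  obtain ⟨e1, e2, e3, e4, e5, e6⟩ := encl
  have hk' : -k ≠ 0 := neg_ne_zero.2 hk
  refine ⟨fun μ hμ => ?_, ?_⟩
  · have gA : (pr 5 4).re + 1 / 10 ≤ (pr 23 11).re := by
      have r1 : (-1 / 4 : ℂ).re = -1 / 4 := by norm_num
      rw [pr_five, r1]; linarith
    have gB : (pr 23 11).re + 1 / 10 ≤ (pr 431 43).re := by rw [pr_eta]; linarith
    have gC : (pr 431 43).re + 1 / 10 ≤ (pr 1 1).re := by rw [pr_eta, pr_one, one_re]; linarith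
    have a1 := edge_k certA gA hμ hk
    have a2 := edge_k certA gA hμ hk'
    have b1 := edge_k certB gB hμ hk
    have b2 := edge_k certB gB hμ hk'
    have c1 := edge_k certC gC hμ hk
    have c2 := edge_k certC gC hμ hk'
    rw [coef_neg] at a2 b2 c2
    refine ⟨mem_hex a1.1 a2.1 b1.1 b2.1 c1.1 c2.1, fun h => ?_⟩
    have o1 : ∀ p q : ℂ, IsOpen {z | cr p q z < 0} := fun p q =>
      isOpen_lt (by unfold cr; fun_prop) continuous_const
    have o2 : ∀ p q : ℂ, IsOpen {z | cr p q ((starRingEnd ℂ) z) < 0} := fun p q =>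
      (o1 p q).preimage continuous_conj
    refine mem_interior.2 ⟨_, fun z hz => ?_,
      ((o1 (pr 5 4) (pr 23 11)).inter (o2 (pr 5 4) (pr 23 11))).inter
        (((o1 (pr 23 11) (pr 431 43)).inter (o2 (pr 23 11) (pr 431 43))).inter
          ((o1 (pr 431 43) (pr 1 1)).inter (o2 (pr 431 43) (pr 1 1)))),
      ⟨a1.2 h, a2.2 h⟩, ⟨b1.2 h, b2.2 h⟩, c1.2 h, c2.2 h⟩
    exact mem_hex (le_of_lt hz.1.1) (le_of_lt hz.1.2) (le_of_lt hz.2.1.1) (le_of_lt hz.2.1.2)
      (le_of_lt hz.2.2.1) (le_of_lt hz.2.2.2)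
  · have p1 : ∀ {k : ℤ}, k ≠ 0 → pr 1 1 ∈ Att k := fun h =>
      att_pr (r := 0) (by decide) (by decide) (by decide) (by decide) (by decide) (by decide) h
    have p5 : ∀ {k : ℤ}, k ≠ 0 → pr 5 4 ∈ Att k := fun h =>
      att_pr (r := 3) (by decide) (by decide) (by decide) (by decide) (by decide) (by decide) h
    have p23 : ∀ {k : ℤ}, k ≠ 0 → pr 23 11 ∈ Att k := fun h =>
      att_pr (r := 8) (by decide) (by decide) (by decide) (by decide) (by decide) (by decide) h
    obtain ⟨r, hr⟩ := certC.r1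
    have p431 : ∀ {k : ℤ}, k ≠ 0 → pr 431 43 ∈ Att k := fun h =>
      att_pr (by decide) (by decide) certC.m1 hr (by norm_num) (by norm_num) h
    refine convexHull_min (t := Att k) ?_ (att_convex k)
    rw [← pr_five, ← pr_23, ← conj_23, ← pr_one, ← pr_eta]
    simp only [Set.insert_subset_iff, Set.singleton_subset_iff]
    exact ⟨p1 hk, p5 hk, p23 hk, att_conj (p23 hk'), p431 hk, att_conj (p431 hk')⟩

end Pool.Agent.MP_60c1b5_an.H51
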