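import Pool.Agent.MP_60c1b5_an.H51.Core

/-! From approximate certificates to the exact edge inequality. -/

namespace Pool.Agent.MP_60c1b5_an.H51

open MeasureTheory Complex Finset
open scoped Real

theorem sum_shift {E : Type} [AddCommGroup E] (f : ℕ → E) (n : ℕ) (hf : ∀ t, f (t + n) = f t)
    (s : ℕ) : ∑ t ∈ range n, f (t + s) = ∑ t ∈ range n, f t := by
  induction s with
  | zero => simp
  | succ s ih =>
    have h1 := sum_range_succ (fun t => f (t + s)) n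
    have h2 := sum_range_succ' (fun t => f (t + s)) n
    rw [h1, ih, add_comm n s, hf, zero_add] at h2
    rw [add_right_cancel h2]
    exact sum_congr rfl fun t _ => by congr 1; ring

theorem sum_mul_per {E : Type} [AddCommGroup E] (f : ℕ → E) (m : ℕ) (hf : ∀ t, f (t + m) = f t)
    (k : ℕ) : ∑ t ∈ range (m * k), f t = k • ∑ t ∈ range m, f t := by
  induction k with
  | zero => simp
  | succ k ih =>
    rw [mul_add, mul_one, sum_range_add, ih, succ_nsmul]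
    congr 1
    rw [← sum_shift f m hf (m * k)]
    exact sum_congr rfl fun t _ => by rw [add_comm]

noncomputable def pr (N n : ℕ) : ℂ := (∑ t ∈ range n, ee (2 ^ t / N)) / n

theorem norm_pr (N n : ℕ) : ‖pr N n‖ ≤ 1 := by
  unfold pr
  rw [norm_div, Complex.norm_natCast]
  refine div_le_one_of_le₀ ((norm_sum_le _ _).trans ?_) (Nat.cast_nonneg n)
  simp [norm_ee]

def InO (D e : ℕ) (i : ℤ) : Prop := ∃ s : ℕ, i ≡ 2 ^ s * e [ZMOD D]

theorem InO.mul {D e : ℕ} {i : ℤ} (h : InO D e i) (t : ℕ) : InO D e (2 ^ t * i) := by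
  obtain ⟨s, hs⟩ := h
  exact ⟨t + s, by rw [pow_add, mul_assoc]; exact hs.mul_left _⟩

theorem InO.congr {D e : ℕ} {i j : ℤ} (h : InO D e i) (hj : j ≡ i [ZMOD D]) : InO D e j := by
  obtain ⟨s, hs⟩ := h
  exact ⟨s, hj.trans hs⟩

theorem per_modEq {E : Type} {ψ : ℤ → E} {D : ℕ} (h : ∀ i n : ℤ, ψ (i + D * n) = ψ i) {i j : ℤ}
    (hij : i ≡ j [ZMOD D]) : ψ i = ψ j := by
  obtain ⟨n, hn⟩ := hij.dvd
  rw [← h i n]; congr 1; linarith

theorem pow_modEq {N e m x : ℕ} (hm : 2 ^ m ≡ x [MOD N]) (t : ℕ) :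
    (2 : ℤ) ^ (t + m) * e ≡ x * (2 ^ t * e) [ZMOD (N * e : ℕ)] := by
  have h1 : (2 : ℤ) ^ m ≡ x [ZMOD N] := by exact_mod_cast Int.natCast_modEq_iff.2 hm
  have h2 := (h1.mul_left (2 ^ t)).mul_right' (c := (e : ℤ))
  push_cast
  rw [pow_add]
  refine h2.trans ?_
  rw [show (2 : ℤ) ^ t * x * e = x * (2 ^ t * e) by ring]

theorem orb_sum {E : Type} [AddCommGroup E] {ψ : ℤ → E} {N e m k r x : ℕ}
    (h : ∀ i n : ℤ, ψ (i + (N * e : ℕ) * n) = ψ i) (hm : 2 ^ m ≡ 1 [MOD N])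
    (hr : 2 ^ r ≡ x [MOD N]) {i : ℤ} (hi : InO (N * e) e i) :
    ∑ t ∈ range (m * k), ψ (x * (2 ^ t * i)) = k • ∑ t ∈ range m, ψ (2 ^ t * e) := by
  obtain ⟨s, hs⟩ := hi
  have p : ∀ t, ψ (2 ^ (t + m) * e) = ψ (2 ^ t * e) := fun t =>
    per_modEq h (by simpa using pow_modEq (e := e) hm t)
  have p' : ∀ k t, ψ (2 ^ (t + m * k) * e) = ψ (2 ^ t * e) := by
    intro k t
    induction k with
    | zero => simp
    | succ k ih => rw [mul_add, mul_one, ← add_assoc, p, ih]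
  rw [← sum_mul_per (fun t => ψ (2 ^ t * e)) m p,
    ← sum_shift (fun t => ψ (2 ^ t * e)) (m * k) (p' k) (s + r)]
  refine sum_congr rfl fun t _ => per_modEq h ?_
  rw [← add_assoc]
  refine Int.ModEq.trans ?_ (pow_modEq hr (t + s)).symm
  rw [pow_add, mul_assoc]
  exact (hs.mul_left _).mul_left _

theorem Phi_int {D : ℕ} (hD : 0 < D) (a b c : ℝ) (u v : ℤ → ℝ) (i : ℤ) :
    Phi D a b c u v (6 * i) = a * (ee (i / D)).re + b * (ee (i / D)).im + c +
      (u i - u (2 * i)) + (v i - v (3 * i)) := by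
  have hL : ∀ (w : ℤ → ℝ) (k : ℤ), L w k = w k := fun w k => by simp [L]
  have hD' : (D : ℝ) ≠ 0 := by positivity
  unfold Phi
  rw [show (6 : ℝ) * i / (6 * D) = i / D by field_simp, show (6 : ℝ) * i / 6 = i by ring,
    show (2 : ℝ) * (6 * i) / 6 = ((2 * i : ℤ) : ℝ) by push_cast; ring,
    show (3 : ℝ) * (6 * i) / 6 = ((3 * i : ℤ) : ℝ) by push_cast; ring, hL, hL, hL, hL]

theorem ee_per {D : ℕ} (hD : 0 < D) (i n : ℤ) :
    ee (((i + D * n : ℤ) : ℝ) / D) = ee (i / D) := by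
  have hD' : (D : ℝ) ≠ 0 := by positivity
  rw [show ((i + D * n : ℤ) : ℝ) / D = i / D + n by push_cast; field_simp, ee_add, ee_int, mul_one]

theorem Phi_sum {N e m k r : ℕ} (hN : 0 < N) (he : 0 < e) (hm0 : 0 < m) (hm : 2 ^ m ≡ 1 [MOD N])
    (hr : 2 ^ r ≡ 3 [MOD N]) (a b c : ℝ) {u v : ℤ → ℝ}
    (hu : ∀ i n : ℤ, u (i + (N * e : ℕ) * n) = u i) (hv : ∀ i n : ℤ, v (i + (N * e : ℕ) * n) = v i)
    {i : ℤ} (hi : InO (N * e) e i) :
    ∑ t ∈ range (m * k), Phi (N * e) a b c u v (6 * ((2 ^ t * i : ℤ) : ℝ)) =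
      (m * k : ℕ) * (a * (pr N m).re + b * (pr N m).im + c) := by
  have hD := Nat.mul_pos hN he
  have h0 : 2 ^ 0 ≡ 1 [MOD N] := Nat.ModEq.refl _
  have h1 : 2 ^ 1 ≡ 2 [MOD N] := Nat.ModEq.refl _
  have u1 := orb_sum (k := k) hu hm h0 hi
  have u2 := orb_sum (k := k) hu hm h1 hi
  have v1 := orb_sum (k := k) hv hm h0 hi
  have v3 := orb_sum (k := k) hv hm hr hi
  have e1 := orb_sum (k := k) (ψ := fun i : ℤ => ee (i / (N * e : ℕ))) (ee_per hD) hm h0 hi
  simp only [Nat.cast_one, one_mul, Nat.cast_ofNat] at u1 u2 v1 v3 e1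
  have e2 : ∑ t ∈ range m, ee ((((2 : ℤ) ^ t * e : ℤ) : ℝ) / (N * e : ℕ)) = m * pr N m := by
    unfold pr
    rw [mul_div_cancel₀ _ (by exact_mod_cast hm0.ne')]
    refine sum_congr rfl fun t _ => ?_
    congr 1; push_cast
    have : (e : ℝ) ≠ 0 := by positivity
    field_simp
  rw [e2] at e1
  have e3 := congrArg Complex.re e1
  have e4 := congrArg Complex.im e1
  rw [re_sum] at e3
  rw [im_sum] at e4
  simp only [Phi_int hD, sum_add_distrib, sum_sub_distrib, ← mul_sum, u1, u2, v1, v3, e3, e4]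
  simp [nsmul_eq_mul]; ring

/-- signed area of the triangle `p q z` -/
def cr (p q z : ℂ) : ℝ := (z.im - p.im) * (q.re - p.re) - (q.im - p.im) * (z.re - p.re)

structure Cert (N1 n1 N2 n2 : ℕ) (a b c δ σ : ℝ) (u v : ℤ → ℝ) : Prop where
  hD : 2 ≤ N1 * N2
  hn1 : 0 < n1
  hn2 : 0 < n2
  m1 : 2 ^ n1 ≡ 1 [MOD N1]
  m2 : 2 ^ n2 ≡ 1 [MOD N2]
  r1 : ∃ r, 2 ^ r ≡ 3 [MOD N1]
  r2 : ∃ r, 2 ^ r ≡ 3 [MOD N2]
  hu : ∀ i n : ℤ, u (i + (N1 * N2 : ℕ) * n) = u i
  hv : ∀ i n : ℤ, v (i + (N1 * N2 : ℕ) * n) = v i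
  bd : ∃ B, (∀ i, |u i| ≤ B) ∧ ∀ i, |v i| ≤ B
  on : ∀ i : ℤ, InO (N1 * N2) N2 i ∨ InO (N1 * N2) N1 i →
    |Phi (N1 * N2) a b c u v (6 * i)| ≤ δ
  off : ∀ j : ℕ, j ≤ 6 * (N1 * N2) → (∃ i : ℕ, j = 6 * i ∧
    (InO (N1 * N2) N2 i ∨ InO (N1 * N2) N1 i)) ∨ Phi (N1 * N2) a b c u v j ≤ -σ
  ha : |a| ≤ 1
  hb0 : 0 < b
  hb : b ≤ 1
  hδ : δ ≤ 1 / 20
  num : 4 * (1 / (N1 * N2 : ℕ)) ^ 2 + 41 * δ + 84 * (n1 * n2 : ℕ) * δ ≤ σ

variable {N1 n1 N2 n2 : ℕ} {a b c δ σ : ℝ} {u v : ℤ → ℝ}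

theorem Cert.sums (C : Cert N1 n1 N2 n2 a b c δ σ u v) (a' b' c' : ℝ) :
    (∀ i, InO (N1 * N2) N2 i →
      ∑ t ∈ range (n1 * n2), Phi (N1 * N2) a' b' c' u v (6 * ((2 ^ t * i : ℤ) : ℝ)) =
      (n1 * n2 : ℕ) * (a' * (pr N1 n1).re + b' * (pr N1 n1).im + c')) ∧
    (∀ i, InO (N1 * N2) N1 i →
      ∑ t ∈ range (n1 * n2), Phi (N1 * N2) a' b' c' u v (6 * ((2 ^ t * i : ℤ) : ℝ)) =
      (n1 * n2 : ℕ) * (a' * (pr N2 n2).re + b' * (pr N2 n2).im + c')) := by
  have h := C.hD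
  have h1 : 0 < N1 := Nat.pos_of_mul_pos_right (by omega : 0 < N1 * N2)
  have h2 : 0 < N2 := Nat.pos_of_mul_pos_left (by omega : 0 < N1 * N2)
  obtain ⟨r1, hr1⟩ := C.r1
  obtain ⟨r2, hr2⟩ := C.r2
  refine ⟨fun i hi => Phi_sum h1 h2 C.hn1 C.m1 hr1 a' b' c' C.hu C.hv hi, fun i hi => ?_⟩
  have hu := C.hu
  have hv := C.hv
  rw [mul_comm N1 N2] at hi hu hv ⊢
  rw [mul_comm n1 n2]
  exact Phi_sum h2 h1 C.hn2 C.m2 hr2 a' b' c' hu hv hi

theorem Cert.approx (C : Cert N1 n1 N2 n2 a b c δ σ u v) :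
    |a * (pr N1 n1).re + b * (pr N1 n1).im + c| ≤ δ ∧
    |a * (pr N2 n2).re + b * (pr N2 n2).im + c| ≤ δ := by
  have hn : (0 : ℝ) < (n1 * n2 : ℕ) := by exact_mod_cast Nat.mul_pos C.hn1 C.hn2
  have key : ∀ (i : ℤ) (x : ℝ), (InO (N1 * N2) N2 i ∨ InO (N1 * N2) N1 i) →
      ∑ t ∈ range (n1 * n2), Phi (N1 * N2) a b c u v (6 * ((2 ^ t * i : ℤ) : ℝ)) =
        (n1 * n2 : ℕ) * x → |x| ≤ δ := by
    intro i x hi h
    have : |(n1 * n2 : ℕ) * x| ≤ (n1 * n2 : ℕ) * δ := by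
      rw [← h]
      refine (abs_sum_le_sum_abs _ _).trans ((sum_le_card_nsmul _ _ δ fun t _ =>
        C.on _ (hi.imp (·.mul t) (·.mul t))).trans ?_)
      simp
    rw [abs_mul, abs_of_pos hn] at this
    exact le_of_mul_le_mul_left this hn
  have o1 : InO (N1 * N2) N2 N2 := ⟨0, by simp⟩
  have o2 : InO (N1 * N2) N1 N1 := ⟨0, by simp⟩
  exact ⟨key _ _ (.inl o1) ((C.sums a b c).1 _ o1), key _ _ (.inr o2) ((C.sums a b c).2 _ o2)⟩

theorem L_add (u w : ℤ → ℝ) (y : ℝ) : L (fun i => u i + w i) y = L u y + L w y := by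
  unfold L; ring

theorem Cert.edge (C : Cert N1 n1 N2 n2 a b c δ σ u v)
    (hpq : (pr N1 n1).re + 1 / 10 ≤ (pr N2 n2).re)
    (μ : Measure UnitAddCircle) [IsProbabilityMeasure μ]
    (h2 : Measure.map (fun x : UnitAddCircle => (2 : ℕ) • x) μ = μ)
    (h3 : Measure.map (fun x : UnitAddCircle => (3 : ℕ) • x) μ = μ) :
    cr (pr N1 n1) (pr N2 n2) (∫ z, fourier 1 z ∂μ) ≤ 0 ∧
    (cr (pr N1 n1) (pr N2 n2) (∫ z, fourier 1 z ∂μ) = 0 →
      μ {z | (6 * (N1 * N2)) • z = 0}ᶜ = 0) := by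
  classical
  obtain ⟨ap, aq⟩ := C.approx
  have np := abs_le.1 ((abs_re_le_norm _).trans (norm_pr N1 n1))
  set p := pr N1 n1
  set q := pr N2 n2
  set D := N1 * N2 with hDdef
  set n := n1 * n2 with hn
  have hD0 : 0 < D := lt_of_lt_of_le (by norm_num) C.hD
  have hn0 : (0 : ℝ) < n := by exact_mod_cast Nat.mul_pos C.hn1 C.hn2
  set lp := a * p.re + b * p.im + c with hlp
  set lq := a * q.re + b * q.im + c with hlq
  have hδ0 : 0 ≤ δ := (abs_nonneg _).trans ap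
  have hd : 0 < q.re - p.re := by linarith
  set κ := (lq - lp) / (q.re - p.re) with hκ
  have hκ' : κ * (q.re - p.re) = lq - lp := div_mul_cancel₀ _ hd.ne'
  have bκ : |κ| ≤ 20 * δ := by
    rw [hκ, abs_div, abs_of_pos hd, div_le_iff₀ hd]
    have := abs_sub lq lp
    nlinarith
  set a' := a - κ with ha'
  set c' := c - lp + κ * p.re with hc'
  have zp : a' * p.re + b * p.im + c' = 0 := by rw [ha', hc', hlp]; ring
  have zq : a' * q.re + b * q.im + c' = 0 := by rw [ha', hc']; linarith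
  have close : ∀ y, |Phi D a' b c' u v y - Phi D a b c u v y| ≤ 41 * δ := by
    intro y
    have nx := abs_le.1 ((abs_re_le_norm _).trans (norm_ee (y / (6 * D))).le)
    have : Phi D a' b c' u v y - Phi D a b c u v y =
        -(lp + κ * ((ee (y / (6 * D))).re - p.re)) := by
      unfold Phi; rw [ha', hc']; ring
    rw [this, abs_neg]
    refine (abs_add_le _ _).trans ?_
    rw [abs_mul]
    have h2 : |(ee (y / (6 * D))).re - p.re| ≤ 2 := by rw [abs_le]; constructor <;> linarith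
    have := mul_le_mul bκ h2 (abs_nonneg _) (by positivity)
    linarith
  set O : ℤ → Prop := fun i => InO D N2 i ∨ InO D N1 i with hO
  have Omul : ∀ i t, O i → O (2 ^ t * i) := fun i t h => h.imp (·.mul t) (·.mul t)
  set φ : ℤ → ℝ := fun i => Phi D a' b c' u v (6 * i) with hφ
  have φb : ∀ i, O i → |φ i| ≤ 42 * δ := by
    intro i hi
    have h1 := abs_le.1 (close (6 * i))
    have h2 := abs_le.1 (C.on i hi)
    rw [abs_le]; constructor <;> simp only [hφ] <;> linarith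
  have φs : ∀ i, O i → ∑ t ∈ range n, φ (2 ^ t * i) = 0 := by
    rintro i (hi | hi)
    · exact ((C.sums a' b c').1 i hi).trans (by rw [zp, mul_zero])
    · exact ((C.sums a' b c').2 i hi).trans (by rw [zq, mul_zero])
  have φp : ∀ i k : ℤ, φ (i + D * k) = φ i := by
    intro i k
    simp only [hφ, Phi_int hD0, ee_per hD0]
    rw [mul_add 2, mul_add 3, mul_left_comm 2, mul_left_comm 3, C.hu, C.hu, C.hv, C.hv]
  have φn : ∀ i, O i → φ (2 ^ n * i) = φ i := by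
    intro i hi
    have a1 := φs i hi
    have a2 := φs _ (Omul i 1 hi)
    have a3 := sum_range_succ (fun t => φ (2 ^ t * i)) n
    have a4 := sum_range_succ' (fun t => φ (2 ^ t * i)) n
    have a5 : ∑ t ∈ range n, φ (2 ^ (t + 1) * i) = ∑ t ∈ range n, φ (2 ^ t * (2 ^ 1 * i)) :=
      sum_congr rfl fun t _ => by rw [pow_add, mul_assoc]
    rw [a3, a5, a1, a2] at a4
    simpa using a4
  set w : ℤ → ℝ := fun i => if O i then (∑ t ∈ range n, t * φ (2 ^ t * i)) / n else 0 with hw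
  have wb : ∀ i, |w i| ≤ 42 * n * δ := by
    intro i
    simp only [hw]
    split_ifs with hi
    · rw [abs_div, abs_of_pos hn0, div_le_iff₀ hn0]
      refine (abs_sum_le_sum_abs _ _).trans ((sum_le_card_nsmul _ _ (n * (42 * δ)) fun t ht =>
        ?_).trans (le_of_eq ?_))
      · rw [abs_mul, Nat.abs_cast]
        have : (t : ℝ) ≤ n := by exact_mod_cast (mem_range.1 ht).le
        exact mul_le_mul this (φb _ (Omul i t hi)) (abs_nonneg _) hn0.le
      · simp; ring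
    · rw [abs_zero]; positivity
  have wp : ∀ i k : ℤ, w (i + D * k) = w i := by
    intro i k
    have e1 : i + D * k ≡ i [ZMOD D] := by simp [Int.ModEq]
    have e2 : O (i + D * k) ↔ O i :=
      ⟨fun h => h.imp (·.congr e1.symm) (·.congr e1.symm), fun h => h.imp (·.congr e1) (·.congr e1)⟩
    simp only [hw, e2]
    split_ifs
    · congr 1
      refine sum_congr rfl fun t _ => ?_
      rw [mul_add (2 ^ t), mul_left_comm (2 ^ t), φp]
    · rfl
  have wc : ∀ i, O i → w (2 * i) = w i + φ i := by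
    intro i hi
    have hi2 : O (2 * i) := by simpa using Omul i 1 hi
    simp only [hw, if_pos hi, if_pos hi2]
    have a1 := φs _ hi2
    have a3 := sum_range_succ (fun t : ℕ => (t : ℝ) * φ (2 ^ t * i)) n
    have a4 := sum_range_succ' (fun t : ℕ => (t : ℝ) * φ (2 ^ t * i)) n
    have a5 : ∑ t ∈ range n, ((t + 1 : ℕ) : ℝ) * φ (2 ^ (t + 1) * i) =
        ∑ t ∈ range n, t * φ (2 ^ t * (2 * i)) + ∑ t ∈ range n, φ (2 ^ t * (2 * i)) := by
      rw [← sum_add_distrib]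
      refine sum_congr rfl fun t _ => ?_
      rw [pow_succ, mul_assoc]; push_cast; ring
    rw [a3, a5, a1, φn i hi] at a4
    simp only [Nat.cast_zero, zero_mul, add_zero] at a4
    rw [← a4]; field_simp
  have hPhi : ∀ y, Phi D a' b c' (fun i => u i + w i) v y =
      Phi D a' b c' u v y + (L w (y / 6) - L w (2 * y / 6)) := by
    intro y; unfold Phi; rw [L_add, L_add]; ring
  have hnum := C.num
  have hE : 0 ≤ (1 / (D : ℝ)) ^ 2 := by positivity
  have node : ∀ j : ℕ, j ≤ 6 * D → (6 ∣ j ∧ Phi D a' b c' (fun i => u i + w i) v j = 0) ∨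
      Phi D a' b c' (fun i => u i + w i) v j ≤ -(4 * (1 / (D : ℝ)) ^ 2) := by
    intro j hj
    rcases C.off j hj with ⟨i, rfl, hi⟩ | h
    · refine .inl ⟨dvd_mul_right _ _, ?_⟩
      have e : ((6 * i : ℕ) : ℝ) = 6 * ((i : ℤ) : ℝ) := by push_cast; ring
      have := wc i hi
      simp only [hφ, Phi_int hD0] at this
      rw [e, Phi_int hD0]; linarith
    · right
      rw [hPhi]
      have h1 := abs_le.1 (close j)
      have h2 := abs_le.1 (L_bdd wb ((j : ℝ) / 6))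
      have h3 := abs_le.1 (L_bdd wb (2 * (j : ℝ) / 6))
      linarith
  obtain ⟨B, bu, bv⟩ := C.bd
  have hW : 0 ≤ 42 * n * δ := by positivity
  have main := core (a := a') (b := b) (c := c') (σ := 4 * (1 / (D : ℝ)) ^ 2)
    (B := B + 42 * n * δ) (u := fun i => u i + w i) (v := v) C.hD
    (fun i k => congrArg₂ (· + ·) (C.hu i k) (wp i k)) C.hv
    (fun i => (abs_add_le _ _).trans (add_le_add (bu i) (wb i))) (fun i => (bv i).trans (by linarith))
    (fun j hj => (node j hj).elim (fun h => h.2.le) fun h => by linarith)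
    (fun j hj => by
      rcases node j hj.le with h | h
      · rcases node (j + 1) hj with h' | h'
        · exfalso; have := h.1; have := h'.1; omega
        · exact .inr h'
      · exact .inl h)
    (by
      have b1 : |a'| + |b| ≤ 3 := by
        have := abs_sub a κ
        have := C.ha; have := C.hb; have := C.hδ
        rw [abs_of_pos C.hb0]; linarith
      have e : (1 : ℝ) / (6 * D) = 1 / D / 6 := by field_simp
      have hE' : 0 < (1 / (D : ℝ)) ^ 2 := by positivity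
      rw [e, div_pow (1 / (D : ℝ))]
      nlinarith) μ h2 h3
  set z := ∫ z, fourier 1 z ∂μ
  have id : (q.re - p.re) * (a' * z.re + b * z.im + c') = b * cr p q z := by
    unfold cr
    linear_combination (q.re - z.re) * zp + (z.re - p.re) * zq
  have hb := C.hb0
  refine ⟨?_, fun h => main.2 ?_⟩
  · have := mul_nonpos_of_nonneg_of_nonpos hd.le main.1
    rw [id] at this
    by_contra hc
    exact absurd this (not_le.2 (mul_pos hb (not_le.1 hc)))
  · rw [h, mul_zero] at id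
    exact (mul_eq_zero.1 id).resolve_left hd.ne'

end Pool.Agent.MP_60c1b5_an.H51
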